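import Pool.Agent.Q282.TP.Loc

/-!
# The Euler products at the edge for the products of powers of hyperelliptic curves over a number field
-/

set_option autoImplicit false
set_option linter.unusedSectionVars false

namespace Q282.TP

open Finset NumberField IsDedekindDomain Polynomial
open Q282.JK Q282.PX Q282.CL Q282.GK Q282.NF
open Pool.Agent.H341R2.Sharp (T)
open Pool.Agent.H921R2.TatePole (below deg nm nm_eq)

section

variable {K : Type} [Field K] [NumberField K] {n : ℕ}

/-- The Euler factor at `v` of `L(H^(2m)(C_1 × ... × C_n), s)` at `s = m + 1`: the reciprocal of the value at `T = q ^ (-(m + 1))`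
of `det (1 - Frob_v T) = exp (- ∑_{k ≥ 1} trace (Frob_v ^ k) T ^ k / k)`, `q = N v`. -/
noncomputable def factorT (f : Fin n → (𝓞 K)[X]) (m : ℕ) (v : HeightOneSpectrum (𝓞 K)) : ℝ :=
  Real.exp (∑' k : ℕ, traceP f v (2 * m) (k + 1) / ((k + 1) * (Ideal.absNorm v.asIdeal : ℝ) ^ ((m + 1) * (k + 1))))

/-- The product of the Euler factors `factorT f m v` over the primes `v` of `K` with `GoodP f v` and `N v ≤ X`. -/
noncomputable def productT (f : Fin n → (𝓞 K)[X]) (m X : ℕ) : ℝ :=
  ∏ᶠ v ∈ {v : HeightOneSpectrum (𝓞 K) | GoodP f v ∧ Ideal.absNorm v.asIdeal ≤ X}, factorT f m v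

/-- The product of the Euler factors `(1 - 1 / N v) ^ (-1)` of the zeta function of `K` at `s = 1` over the primes with
`N v ≤ X`. -/
noncomputable def zetaP (K : Type) [Field K] [NumberField K] (X : ℕ) : ℝ :=
  ∏ᶠ v ∈ {v : HeightOneSpectrum (𝓞 K) | Ideal.absNorm v.asIdeal ≤ X}, (1 - 1 / (Ideal.absNorm v.asIdeal : ℝ))⁻¹

open Classical in
/-- the logarithm of the factor -/
noncomputable def valT (f : Fin n → (𝓞 K)[X]) (m : ℕ) (v : HeightOneSpectrum (𝓞 K)) : ℝ :=
  if GoodP f v then ∑' k : ℕ, traceP f v (2 * m) (k + 1) / ((k + 1) * (Ideal.absNorm v.asIdeal : ℝ) ^ ((m + 1) * (k + 1))) else 0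

/-- the logarithm of the factor of the zeta function -/
noncomputable def zv (v : HeightOneSpectrum (𝓞 K)) : ℝ := -Real.log (1 - 1 / (Ideal.absNorm v.asIdeal : ℝ))

/-- the logarithm of the product -/
theorem log_productT (f : Fin n → (𝓞 K)[X]) (m X : ℕ) :
    0 < productT f m X ∧ Real.log (productT f m X) = ∑ v ∈ SX K X, valT f m v := by
  classical
  have h1 : productT f m X = ∏ v ∈ (SX K X).filter (GoodP f), factorT f m v := by
    unfold productT
    refine finprod_mem_eq_prod_of_inter_mulSupport_eq _ ?_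
    congr 1
    ext v
    rw [Set.mem_ofPred_eq, mem_coe, mem_filter, mem_SX]
    exact and_comm
  have hpos : ∀ v ∈ (SX K X).filter (GoodP f), 0 < factorT f m v := fun v _ => Real.exp_pos _
  refine ⟨by rw [h1]; exact prod_pos hpos, ?_⟩
  rw [h1, Real.log_prod (fun v hv => (hpos v hv).ne'), sum_filter]
  refine sum_congr rfl fun v _ => ?_
  unfold valT
  split_ifs with h
  · unfold factorT
    rw [Real.log_exp]
  · rfl

lemma two_le (v : HeightOneSpectrum (𝓞 K)) : (2 : ℝ) ≤ Ideal.absNorm v.asIdeal := by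
  rw [norm_eq]
  have h1 : 2 ≤ (below v : ℕ) ^ deg v := (below v).prop.two_le.trans (Nat.le_self_pow (nm_eq v).2.1.ne' _)
  exact_mod_cast h1

/-- the logarithm of the product -/
theorem log_zetaP (X : ℕ) : 0 < zetaP K X ∧ Real.log (zetaP K X) = ∑ v ∈ SX K X, zv v := by
  classical
  have h1 : zetaP K X = ∏ v ∈ SX K X, (1 - 1 / (Ideal.absNorm v.asIdeal : ℝ))⁻¹ := by
    unfold zetaP
    refine finprod_mem_eq_prod_of_inter_mulSupport_eq _ ?_
    congr 1
    ext v
    rw [Set.mem_ofPred_eq, mem_coe, mem_SX]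
  have hpos : ∀ v ∈ SX K X, 0 < (1 - 1 / (Ideal.absNorm v.asIdeal : ℝ))⁻¹ := by
    intro v _
    have h2 := two_le v
    have h3 : 1 / (Ideal.absNorm v.asIdeal : ℝ) ≤ 1 / 2 := one_div_le_one_div_of_le (by norm_num) h2
    exact inv_pos.2 (by linarith)
  refine ⟨by rw [h1]; exact prod_pos hpos, ?_⟩
  rw [h1, Real.log_prod (fun v hv => (hpos v hv).ne')]
  refine sum_congr rfl fun v _ => ?_
  unfold zv
  rw [Real.log_inv]

lemma types_even {m : ℕ} {c : Fin n → Fin 3} (hc : c ∈ types n (2 * m)) :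
    (ones c).card + 2 * (twos c).card = 2 * m ∧ Even (ones c).card := by
  unfold types at hc
  rw [mem_filter, sum_types] at hc
  refine ⟨hc.2, ?_⟩
  have h1 := hc.2
  rw [Nat.even_iff]
  omega

/-- the traces -/
lemma trace_zkT (f : Fin n → (𝓞 K)[X]) (v : HeightOneSpectrum (𝓞 K)) [Fintype (Res v)] [DecidableEq (Res v)] (h2 : (2 : Res v) ≠ 0)
    (m : ℕ) (k : ℕ) (hk : 1 ≤ k) :
    traceP f v (2 * m) k / (Ideal.absNorm v.asIdeal : ℝ) ^ ((m + 1) * k) =
      zk (types n (2 * m)) (fun j => (f j).map (red v)) k / (Fintype.card (Res v) : ℝ) ^ k := by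
  unfold traceP zk
  rw [sum_div, sum_div]
  refine sum_congr rfl fun c hc => ?_
  obtain ⟨h1, heven⟩ := types_even hc
  have hpt : ∀ j, (Ideal.absNorm v.asIdeal : ℝ) ^ k - points (f j) v k = -(T ((f j).map (red v)) k : ℝ) := by
    intro j
    have h3 := pts_eq (res_ring v h2) ((f j).map (red v)) k hk
    unfold Q282.JK.points
    rw [res_card v] at h3
    rw [← h3]
    ring
  rw [prod_types, prod_congr rfl (fun j _ => hpt j), prod_neg, heven.neg_one_pow, one_mul, ← res_card v]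
  obtain ⟨s, hs⟩ : ∃ s : ℝ, s = Real.sqrt (Fintype.card (Res v)) := ⟨_, rfl⟩
  have hq0 : (0 : ℝ) < Fintype.card (Res v) := by exact_mod_cast Fintype.card_pos
  have hs0 : 0 < s := by
    rw [hs]
    exact Real.sqrt_pos.2 hq0
  have hsq : (Fintype.card (Res v) : ℝ) = s ^ 2 := by
    rw [hs, Real.sq_sqrt hq0.le]
  rw [hsq, Real.sqrt_sq hs0.le, prod_div_distrib, prod_const]
  obtain ⟨P, hP⟩ : ∃ P : ℝ, P = ∏ j ∈ ones c, (T ((f j).map (red v)) k : ℝ) := ⟨_, rfl⟩
  rw [← hP]
  have e1 : (s ^ 2) ^ ((m + 1) * k) = (s ^ k) ^ (2 * m + 2) := by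
    rw [← pow_mul, ← pow_mul]
    congr 1
    ring
  have e2 : ((s ^ 2) ^ k) ^ (twos c).card = (s ^ k) ^ (2 * (twos c).card) := by
    rw [← pow_mul, ← pow_mul, ← pow_mul]
    congr 1
    ring
  have e4 : (s ^ 2) ^ k = (s ^ k) ^ 2 := by
    rw [← pow_mul, ← pow_mul, mul_comm]
  rw [e1, e2, e4, ← h1, pow_add, pow_add]
  have hsk : 0 < s ^ k := by positivity
  field_simp

lemma valT_eq (f : Fin n → (𝓞 K)[X]) (v : HeightOneSpectrum (𝓞 K)) [Fintype (Res v)] [DecidableEq (Res v)] (h2 : (2 : Res v) ≠ 0)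
    (m : ℕ) :
    ∑' k : ℕ, traceP f v (2 * m) (k + 1) / ((k + 1) * (Ideal.absNorm v.asIdeal : ℝ) ^ ((m + 1) * (k + 1))) =
      lvalT (types n (2 * m)) (fun j => (f j).map (red v)) := by
  unfold lvalT
  refine tsum_congr fun k => ?_
  have h1 := trace_zkT f v h2 m (k + 1) (by omega)
  rw [mul_comm ((k : ℝ) + 1), ← div_div, mul_comm ((k : ℝ) + 1), ← div_div, ← h1]

lemma log_bound {q : ℝ} (hq : 2 ≤ q) : |(-Real.log (1 - 1 / q)) - 1 / q| ≤ 2 / q ^ 2 := by
  have hq0 : 0 < q := by linarith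
  have h1 : |1 / q| < 1 := by
    rw [abs_of_pos (by positivity), div_lt_one hq0]
    linarith
  have h2 := Real.abs_log_sub_add_sum_range_le h1 1
  rw [sum_range_one, abs_of_pos (by positivity : 0 < 1 / q)] at h2
  have h3 : (-Real.log (1 - 1 / q)) - 1 / q = -((1 / q) ^ (0 + 1) / (((0 : ℕ) : ℝ) + 1) + Real.log (1 - 1 / q)) := by
    norm_num
    ring
  rw [h3, abs_neg]
  refine h2.trans ?_
  have h4 : 1 / q ≤ 1 / 2 := one_div_le_one_div_of_le (by norm_num) hq
  rw [div_le_div_iff₀ (by linarith) (by positivity)]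
  have h5 : (1 / q) ^ (1 + 1) * q ^ 2 = 1 := by
    norm_num
    rw [inv_mul_cancel₀ (by positivity)]
  rw [h5]
  linarith

end

variable {n s : ℕ}

/-- the local data -/
theorem loc_T (K : Type) [Field K] [NumberField K] (g : Fin s → ℕ) (π : Fin n → Fin s) (m : ℕ)
    (hk : ∀ c ∈ types n (2 * m), ∀ i, km π c i ≤ 2 * g i + 1) : ∃ B : ℝ, 0 < B ∧
    LocZ K (Jx g) B (fun v t => valT (fun j => cu t (π j)) m v - ordT π (types n (2 * m)) * zv v) := by
  classical
  obtain ⟨B, hB0, hB⟩ := locT_all π (types n (2 * m)) g hk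
  obtain ⟨R, hR⟩ : ∃ R : ℝ, R = ordT π (types n (2 * m)) := ⟨_, rfl⟩
  obtain ⟨d, hd⟩ : ∃ d : ℕ, d = Module.finrank ℚ K := ⟨_, rfl⟩
  have hval : ∀ (v : HeightOneSpectrum (𝓞 K)) (t : Jx g → 𝓞 K),
      valT (fun j => cu t (π j)) m v = @locT (Res v) _ (Fintype.ofFinite _) (Classical.decEq _) n s g π (types n (2 * m)) (fun i => red v (t i)) := by
    intro v t
    let _ : Fintype (Res v) := Fintype.ofFinite _
    unfold valT locT GoodP
    have h1 : ∀ j, (cu t (π j)).map (red v) = cu (fun i => red v (t i)) (π j) := fun j => hp_map (red v) _ _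
    rw [two_iff]
    by_cases hg2 : (2 : Res v) ≠ 0 ∧ ∀ j, Squarefree ((cu t (π j)).map (red v))
    · rw [if_pos hg2, if_pos ⟨hg2.1, fun j => by rw [← h1]; exact hg2.2 j⟩, valT_eq (fun j => cu t (π j)) v hg2.1 m]
      congr 1
      funext j
      exact h1 j
    · rw [if_neg hg2, if_neg]
      rintro ⟨h3, h4⟩
      exact hg2 ⟨h3, fun j => by rw [h1]; exact h4 j⟩
  rw [← hR]
  refine ⟨B + 3 * |R| * 2 ^ d, by positivity, fun v => ?_⟩
  let _ : Fintype (Res v) := Fintype.ofFinite _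
  obtain ⟨h1, h2⟩ := hB (Res v)
  obtain ⟨q, hq⟩ : ∃ q : ℝ, q = Fintype.card (Res v) := ⟨_, rfl⟩
  have hqN : (Ideal.absNorm v.asIdeal : ℝ) = q := by
    rw [hq, res_card v]
  have hq2 : 2 ≤ q := by
    rw [← hqN]
    exact two_le v
  have hq0 : 0 < q := by linarith
  have hzv : zv v = -Real.log (1 - 1 / q) := by
    unfold zv
    rw [hqN]
  have hz1 := log_bound hq2
  rw [← hzv] at hz1
  have hz2 : |zv v| ≤ 2 / q := by
    have h3 : 2 / q ^ 2 ≤ 1 / q := by
      rw [div_le_div_iff₀ (by positivity) hq0]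
      nlinarith
    have h4 := abs_sub_abs_le_abs_sub (zv v) (1 / q)
    rw [abs_of_pos (by positivity : 0 < 1 / q)] at h4
    have h5 : 2 / q = 1 / q + 1 / q := by ring
    linarith
  have h2d : (1 : ℝ) ≤ 2 ^ d := one_le_pow₀ (by norm_num)
  have hRd : 0 ≤ |R| := abs_nonneg R
  refine ⟨Res v, inferInstance, inferInstance, red v, fun u => locT π (types n (2 * m)) u - R * zv v, red_surj v, res_char v,
    res_card v, fun t => by
      show valT (fun j => cu t (π j)) m v - R * zv v = locT π (types n (2 * m)) (fun i => red v (t i)) - R * zv v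
      rw [hval v t], ?_, ?_⟩
  · intro u
    rw [← hq]
    have h3 := h1 u
    rw [← hq] at h3
    have h4 : |R * zv v| ≤ |R| * (2 / q) := by
      rw [abs_mul]
      exact mul_le_mul_of_nonneg_left hz2 hRd
    refine (abs_sub _ _).trans ((add_le_add h3 h4).trans ?_)
    have h5 : B / q + |R| * (2 / q) = (B + 2 * |R|) / q := by ring
    rw [h5]
    refine div_le_div_of_nonneg_right ?_ hq0.le
    nlinarith
  · rw [← hq]
    have hq32 : 0 < q ^ (3 / 2 : ℝ) := by positivity
    have hqq : q ^ (3 / 2 : ℝ) ≤ q ^ 2 := by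
      rw [← Real.rpow_natCast]
      exact Real.rpow_le_rpow_of_exponent_le (by linarith) (by norm_num)
    rw [av_sub, av_const]
    by_cases hF : ringChar (Res v) = 2
    · -- the primes over two
      have h20 : (2 : Res v) = 0 := by
        have := CharP.cast_eq_zero (Res v) (ringChar (Res v))
        rw [hF] at this
        exact_mod_cast this
      have h3 : av (fun u : Jx g → Res v => locT π (types n (2 * m)) u) = 0 := by
        have h4 : (fun u : Jx g → Res v => locT π (types n (2 * m)) u) = fun _ => 0 := by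
          funext u
          unfold locT
          rw [if_neg (fun h => h.1 h20)]
        rw [h4, av_const]
      rw [h3, zero_sub, abs_neg, abs_mul]
      have hb : (below v : ℕ) = 2 := by
        have := res_char v
        have h4 := ringChar.eq (Res v) (below v : ℕ)
        rw [hF] at h4
        exact h4.symm
      have hqd : q ≤ 2 ^ d := by
        rw [← hqN, norm_eq, hb]
        push_cast
        refine pow_le_pow_right₀ (by norm_num) ?_
        rw [hd]
        exact deg_le v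
      rw [le_div_iff₀ hq32]
      have h5 : |R| * |zv v| * q ^ (3 / 2 : ℝ) ≤ |R| * (2 / q) * q ^ 2 :=
        mul_le_mul (mul_le_mul_of_nonneg_left hz2 hRd) hqq hq32.le (by positivity)
      have h6 : |R| * (2 / q) * q ^ 2 = 2 * |R| * q := by
        field_simp
      rw [h6] at h5
      have h7 : 2 * |R| * q ≤ 2 * |R| * 2 ^ d := mul_le_mul_of_nonneg_left hqd (by positivity)
      have h8 : 0 ≤ |R| * 2 ^ d := by positivity
      linarith
    · have h3 := h2 hF
      rw [← hq, ← hR] at h3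
      have h4 : av (fun u : Jx g → Res v => locT π (types n (2 * m)) u) - R * zv v =
          (av (fun u : Jx g → Res v => locT π (types n (2 * m)) u) - R / q) - R * (zv v - 1 / q) := by ring
      rw [h4]
      have h5 : |R * (zv v - 1 / q)| ≤ |R| * (2 / q ^ 2) := by
        rw [abs_mul]
        exact mul_le_mul_of_nonneg_left hz1 hRd
      refine (abs_sub _ _).trans ((add_le_add h3 h5).trans ?_)
      have h6 : B / q ^ 2 + |R| * (2 / q ^ 2) = (B + 2 * |R|) / q ^ 2 := by ring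
      rw [h6]
      refine div_le_div₀ (by positivity) ?_ hq32 hqq
      nlinarith

/-- the sum of the inverses of the norms -/
theorem inv_sum (K : Type) [Field K] [NumberField K] : ∃ M : ℝ, 0 ≤ M ∧ ∀ X : ℕ, 3 ≤ X →
    |∑ v ∈ SX K X, zv v - Real.log (Real.log X)| ≤ M := by
  classical
  obtain ⟨M₀, hM₀0, hM₀⟩ := nu_sum K
  obtain ⟨C₀, hC₀0, hC₀⟩ := summ
  obtain ⟨D, hD⟩ : ∃ D : ℝ, D = Module.finrank ℚ K := ⟨_, rfl⟩
  have hD0 : 0 ≤ D := by rw [hD]; positivity
  refine ⟨M₀ + D * 3 * C₀, by positivity, fun X hX => ?_⟩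
  have hfib : ∀ p ∈ BP.PP X, |∑ v ∈ (SX K X).filter (fun v => (below v : ℕ) = p), zv v - nu K p / p| ≤ D * 3 * (1 / Real.sqrt p ^ 3) := by
    intro p hp
    have hp' := mem_filter.1 hp
    have hpX := (mem_Icc.1 hp'.1).2
    obtain ⟨P, hP⟩ : ∃ P : Nat.Primes, (P : ℕ) = p := ⟨⟨p, hp'.2⟩, rfl⟩
    subst hP
    have hp1 : (1 : ℝ) ≤ (P : ℕ) := by exact_mod_cast P.prop.one_lt.le
    have hp0 : (0 : ℝ) < (P : ℕ) := by linarith
    have h1 : ∑ v ∈ (SX K X).filter (fun v => (below v : ℕ) = P), zv v =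
        ∑ v : {v : HeightOneSpectrum (𝓞 K) // below v = P}, if Ideal.absNorm v.1.asIdeal ≤ X then zv v.1 else 0 := by
      rw [← sum_filter]
      symm
      refine sum_bij (fun v _ => v.1) ?_ ?_ ?_ ?_
      · rintro ⟨v, hv⟩ h3
        rw [mem_filter] at h3 ⊢
        exact ⟨mem_SX.2 h3.2, by rw [hv]⟩
      · rintro ⟨v, _⟩ _ ⟨w, _⟩ _ h3
        exact Subtype.ext h3
      · intro v hv
        rw [mem_filter] at hv
        refine ⟨⟨v, Subtype.ext hv.2⟩, ?_, rfl⟩
        rw [mem_filter]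
        exact ⟨mem_univ _, mem_SX.1 hv.1⟩
      · intro v _
        rfl
    have h2 : nu K P / (P : ℕ) = ∑ v : {v : HeightOneSpectrum (𝓞 K) // below v = P}, if deg v.1 = 1 then 1 / ((P : ℕ) : ℝ) else 0 := by
      rw [Q282.MN.nu_sum_one]
      ring
    rw [h1, h2, ← sum_sub_distrib]
    refine (abs_sum_le_sum_abs _ _).trans ?_
    have h3 : ∀ v : {v : HeightOneSpectrum (𝓞 K) // below v = P}, |(if Ideal.absNorm v.1.asIdeal ≤ X then zv v.1 else 0) -
        (if deg v.1 = 1 then 1 / ((P : ℕ) : ℝ) else 0)| ≤ 3 * (1 / Real.sqrt (P : ℕ) ^ 3) := by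
      rintro ⟨v, hv⟩
      show |(if Ideal.absNorm v.asIdeal ≤ X then zv v else 0) - (if deg v = 1 then 1 / ((P : ℕ) : ℝ) else 0)| ≤ _
      have hs1 : 1 ≤ Real.sqrt (P : ℕ) := Real.one_le_sqrt.2 hp1
      have hsq : Real.sqrt (P : ℕ) ^ 2 = (P : ℕ) := Real.sq_sqrt hp0.le
      have hs3 : Real.sqrt (P : ℕ) ^ 3 ≤ ((P : ℕ) : ℝ) ^ 2 := by
        calc Real.sqrt (P : ℕ) ^ 3 ≤ Real.sqrt (P : ℕ) ^ 4 := pow_le_pow_right₀ hs1 (by norm_num)
          _ = (Real.sqrt (P : ℕ) ^ 2) ^ 2 := by ring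
          _ = _ := by rw [hsq]
      have hinv : 1 / ((P : ℕ) : ℝ) ^ 2 ≤ 1 / Real.sqrt (P : ℕ) ^ 3 := one_div_le_one_div_of_le (by positivity) hs3
      have hlog := log_bound (two_le v)
      have hzv : zv v = -Real.log (1 - 1 / (Ideal.absNorm v.asIdeal : ℝ)) := rfl
      rw [← hzv] at hlog
      by_cases hd1 : deg v = 1
      · have hn : Ideal.absNorm v.asIdeal = P := by rw [norm_eq, hv, hd1, pow_one]
        rw [if_pos hd1, if_pos (by rw [hn]; exact hpX)]
        rw [hn] at hlog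
        refine hlog.trans ?_
        have : 2 / ((P : ℕ) : ℝ) ^ 2 = 2 * (1 / ((P : ℕ) : ℝ) ^ 2) := by ring
        rw [this]
        have : 0 ≤ 1 / Real.sqrt (P : ℕ) ^ 3 := by positivity
        linarith
      · rw [if_neg hd1, sub_zero]
        split_ifs
        · have hd2 : 2 ≤ deg v := by
            have := (nm_eq v).2.1
            omega
          have hqp : ((P : ℕ) : ℝ) ^ 2 ≤ Ideal.absNorm v.asIdeal := by
            rw [norm_eq, hv]
            exact_mod_cast Nat.pow_le_pow_right P.prop.pos hd2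
          have h5 : |zv v| ≤ 2 / (Ideal.absNorm v.asIdeal : ℝ) := by
            have hq2 := two_le v
            have h3 : 2 / (Ideal.absNorm v.asIdeal : ℝ) ^ 2 ≤ 1 / (Ideal.absNorm v.asIdeal : ℝ) := by
              rw [div_le_div_iff₀ (by positivity) (by linarith)]
              nlinarith
            have h4 := abs_sub_abs_le_abs_sub (zv v) (1 / (Ideal.absNorm v.asIdeal : ℝ))
            rw [abs_of_nonneg (by positivity : 0 ≤ 1 / (Ideal.absNorm v.asIdeal : ℝ))] at h4
            have h5 : 2 / (Ideal.absNorm v.asIdeal : ℝ) = 1 / (Ideal.absNorm v.asIdeal : ℝ) + 1 / (Ideal.absNorm v.asIdeal : ℝ) := by ring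
            linarith
          refine h5.trans ?_
          have h6 : 2 / (Ideal.absNorm v.asIdeal : ℝ) ≤ 2 / ((P : ℕ) : ℝ) ^ 2 := div_le_div_of_nonneg_left (by norm_num) (by positivity) hqp
          refine h6.trans ?_
          have : 2 / ((P : ℕ) : ℝ) ^ 2 = 2 * (1 / ((P : ℕ) : ℝ) ^ 2) := by ring
          rw [this]
          have : 0 ≤ 1 / Real.sqrt (P : ℕ) ^ 3 := by positivity
          linarith
        · rw [abs_zero]
          positivity
    refine (sum_le_sum fun v _ => h3 v).trans ?_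
    rw [sum_const, card_univ, nsmul_eq_mul, mul_assoc]
    refine mul_le_mul_of_nonneg_right ?_ (by positivity)
    rw [hD]
    exact fib_card P
  have hall : ∑ v ∈ SX K X, zv v = ∑ p ∈ BP.PP X, ∑ v ∈ (SX K X).filter (fun v => (below v : ℕ) = p), zv v := by
    symm
    refine sum_fiberwise_of_maps_to ?_ _
    intro v hv
    rw [mem_SX, norm_eq] at hv
    unfold BP.PP
    rw [mem_filter, mem_Icc]
    exact ⟨⟨(below v).prop.one_lt.le, (Nat.le_self_pow (nm_eq v).2.1.ne' _).trans hv⟩, (below v).prop⟩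
  have h1 : |∑ v ∈ SX K X, zv v - ∑ p ∈ BP.PP X, nu K p / p| ≤ D * 3 * C₀ := by
    rw [hall, ← sum_sub_distrib]
    refine (abs_sum_le_sum_abs _ _).trans ((sum_le_sum hfib).trans ?_)
    rw [← mul_sum]
    exact mul_le_mul_of_nonneg_left (hC₀ (BP.PP X) fun p hp => (mem_filter.1 hp).2) (by positivity)
  have h2 := hM₀ X hX
  have h3 : ∑ v ∈ SX K X, zv v - Real.log (Real.log X) = (∑ v ∈ SX K X, zv v - ∑ p ∈ BP.PP X, nu K p / p) +
      (∑ p ∈ BP.PP X, nu K p / p - Real.log (Real.log X)) := by ring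
  rw [h3]
  refine (abs_add_le _ _).trans ?_
  linarith

end Q282.TP
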