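import Pool.Agent.Q282.TP.Glob
import Pool.Agent.Q282.PX.Comb

/-!
# Convergence with a power saving
-/

set_option autoImplicit false
set_option linter.unusedSectionVars false

namespace Q282.TP

open Finset NumberField IsDedekindDomain Filter
open Q282.NF Q282.GK Q282.CL Q282.MN Q282.JB
open Q282.BP (PP bx mem_bx card_bx)
open Pool.Agent.H921R2.TatePole (below deg nm nm_eq)

lemma harm (j X : ℕ) (hX : X ≤ 2 ^ (j + 1)) : ∑ p ∈ PP X, 1 / (p : ℝ) ≤ j + 2 := by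
  have h1 : ∑ p ∈ PP X, 1 / (p : ℝ) ≤ ∑ p ∈ (Icc 1 (2 ^ (j + 1)) : Finset ℕ), 1 / (p : ℝ) := by
    refine sum_le_sum_of_subset_of_nonneg ?_ fun p _ _ => by positivity
    intro p hp
    unfold BP.PP at hp
    rw [mem_filter, mem_Icc] at hp
    rw [mem_Icc]
    exact ⟨hp.1.1, hp.1.2.trans hX⟩
  have h2 : ∑ p ∈ (Icc 1 (2 ^ (j + 1)) : Finset ℕ), 1 / (p : ℝ) = (harmonic (2 ^ (j + 1)) : ℝ) := by
    rw [harmonic_eq_sum_Icc]
    push_cast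
    exact sum_congr rfl fun p _ => by rw [one_div]
  have h3 := harmonic_le_one_add_log (2 ^ (j + 1))
  have h4 : Real.log ((2 ^ (j + 1) : ℕ) : ℝ) ≤ j + 1 := by
    push_cast
    rw [Real.log_pow]
    push_cast
    have h5 : Real.log 2 ≤ 1 := by
      have := Real.log_two_lt_d9
      linarith
    have h6 : (0 : ℝ) ≤ (j : ℝ) + 1 := by positivity
    nlinarith
  rw [h2] at h1
  linarith

/-- one block -/
theorem blk (K : Type) [Field K] [NumberField K] (ι : Type) [Fintype ι] [DecidableEq ι] (B : ℝ) (hB : 0 < B) (k : ℕ) (hk : 1 ≤ k) :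
    ∃ C : ℝ, 0 ≤ C ∧ ∀ (b : Fin (Module.finrank ℚ K) → 𝓞 K), (∀ x : 𝓞 K, ∃ a : Fin (Module.finrank ℚ K) → ℤ, x = ∑ j, (a j : 𝓞 K) * b j) →
    ∀ val : HeightOneSpectrum (𝓞 K) → (ι → 𝓞 K) → ℝ, LocZ K ι B val → ∀ j X : ℕ, 2 ^ j ≤ X → X ≤ 2 ^ (j + 1) →
    ∀ T : ℝ, 0 < T → 2 * Fintype.card (ι × Fin (Module.finrank ℚ K)) * (X : ℝ) ^ (5 * k) ≤ T →
    ∀ (N : ι × Fin (Module.finrank ℚ K) → ℤ) (L : ι × Fin (Module.finrank ℚ K) → ℕ), (∀ i, T ≤ L i) → ∀ l : ℝ, 0 < l →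
    ∀ E : Finset (ι × Fin (Module.finrank ℚ K) → ℤ), E ⊆ kbox N L →
      (∀ n ∈ E, l + C / Real.sqrt ((2 : ℝ) ^ j) < |∑ v ∈ SX K X, val v (comb b n) - ∑ v ∈ SX K (2 ^ j), val v (comb b n)|) →
      (E.card : ℝ) * l ^ (2 * k) ≤ C * (((j : ℝ) + 2) / (2 : ℝ) ^ j) ^ k * ∏ i, (L i : ℝ) := by
  classical
  obtain ⟨D, hD⟩ : ∃ D : ℝ, D = Module.finrank ℚ K := ⟨_, rfl⟩
  have hD1 : 1 ≤ D := by
    rw [hD]
    exact_mod_cast (Module.finrank_pos : 0 < Module.finrank ℚ K)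
  obtain ⟨M, hM⟩ : ∃ M : ℝ, M = (6 * (2 * k).factorial + 1 : ℝ) := ⟨_, rfl⟩
  have hM0 : 0 ≤ M := by rw [hM]; positivity
  refine ⟨M * (8 * (D * B) ^ 2) ^ k + 2 * (D * B), by positivity, ?_⟩
  intro b hb val hloc j X hjX hXj T hT0 hT N L hL l hl E hE hEx
  obtain ⟨Q, hQ⟩ : ∃ Q : ℕ, Q = 2 ^ j := ⟨_, rfl⟩
  have hQ1 : 1 ≤ Q := by rw [hQ]; exact Nat.one_le_two_pow
  have hQr : (Q : ℝ) = (2 : ℝ) ^ j := by rw [hQ]; push_cast; rfl
  have hQX : Q ≤ X := by rw [hQ]; exact hjX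
  have hXQ : X ≤ 2 * Q := by rw [hQ, ← pow_succ']; exact hXj
  have hQ0 : (0 : ℝ) < Q := by exact_mod_cast hQ1
  have hsQ : 0 < Real.sqrt Q := Real.sqrt_pos.2 hQ0
  rw [← hQ, ← hQr] at hEx
  rw [← hQr]
  have hP0 : 0 < ∏ i, (L i : ℝ) := prod_pos fun i _ => hT0.trans_le (hL i)
  have hprime : ∀ p ∈ PP X, p.Prime := fun p hp => (mem_filter.1 hp).2
  have hpX : ∀ p ∈ PP X, p ≤ X := fun p hp => (mem_Icc.1 (mem_filter.1 hp).1).2
  obtain ⟨Z, hZ⟩ : ∃ Z : (ι × Fin (Module.finrank ℚ K) → ℤ) → ℝ, Z = fun n =>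
      ∑ p ∈ PP X, (Hw val b (cI Q X) p (fun i => (n i : ZMod p)) - mn (Hw val b (cI Q X)) p) := ⟨_, rfl⟩
  have hdiff : ∀ n : ι × Fin (Module.finrank ℚ K) → ℤ, ∑ v ∈ SX K X, val v (comb b n) - ∑ v ∈ SX K Q, val v (comb b n) =
      Z n + ∑ p ∈ PP X, mn (Hw val b (cI Q X)) p := by
    intro n
    have h1 := z_sum hloc b (cI Q X) X (fun m hm => cI_zero hm) n
    have h2 : ∑ v ∈ SX K X, cI Q X (Ideal.absNorm v.asIdeal) * val v (comb b n) =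
        ∑ v ∈ SX K X, val v (comb b n) - ∑ v ∈ SX K Q, val v (comb b n) := by
      have h3 : SX K Q = (SX K X).filter fun v => Ideal.absNorm v.asIdeal ≤ Q := by
        ext v
        rw [mem_filter, mem_SX, mem_SX]
        exact ⟨fun h => ⟨h.trans hQX, h⟩, fun h => h.2⟩
      rw [h3, sum_filter, ← sum_sub_distrib]
      refine sum_congr rfl fun v hv => ?_
      rw [mem_SX] at hv
      unfold cI
      by_cases h4 : Ideal.absNorm v.asIdeal ≤ Q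
      · rw [if_neg (fun h => absurd h.1 (not_lt.2 h4)), if_pos h4]
        ring
      · rw [if_pos ⟨not_le.1 h4, hv⟩, if_neg h4]
        ring
    rw [← h2, h1, hZ]
    show _ = ∑ p ∈ PP X, (Hw val b (cI Q X) p (fun i => (n i : ZMod p)) - mn (Hw val b (cI Q X)) p) + _
    rw [sum_sub_distrib]
    ring
  have hm := I_mean hloc hB.le b hb Q X hQ1 hXQ
  rw [← hD] at hm
  have hEZ : ∀ n ∈ E, l < |Z n| := by
    intro n hn
    have h1 := hEx n hn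
    rw [hdiff] at h1
    have h2 := abs_add_le (Z n) (∑ p ∈ PP X, mn (Hw val b (cI Q X)) p)
    have h3 : 2 * (D * B) / Real.sqrt Q ≤ (M * (8 * (D * B) ^ 2) ^ k + 2 * (D * B)) / Real.sqrt Q := by
      refine div_le_div_of_nonneg_right ?_ hsQ.le
      have : 0 ≤ M * (8 * (D * B) ^ 2) ^ k := by positivity
      linarith
    linarith
  have h1 := markov (kbox N L) Z k l hl E hE hEZ
  have h2 := kmom k hk (Real.sqrt 2 * (D * B) / Real.sqrt Q) (by positivity) (PP X) hprime X hpX (Hw val b (cI Q X))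
    (fun p hp u => by
      have := I_le hloc hB.le b Q X hQ1 hXQ p hp u
      rw [← hD] at this
      exact this) T hT0 hT N L hL
  have h3 : ∑ p ∈ PP X, (2 * (Real.sqrt 2 * (D * B) / Real.sqrt Q)) ^ 2 / p ≤ 8 * (D * B) ^ 2 * (((j : ℝ) + 2) / Q) := by
    have e1 : ∀ p ∈ PP X, (2 * (Real.sqrt 2 * (D * B) / Real.sqrt Q)) ^ 2 / (p : ℝ) = (8 * (D * B) ^ 2 / Q) * (1 / (p : ℝ)) := by
      intro p _
      rw [mul_pow, div_pow, mul_pow, Real.sq_sqrt (by norm_num : (0 : ℝ) ≤ 2), Real.sq_sqrt hQ0.le]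
      ring
    rw [sum_congr rfl e1, ← mul_sum]
    have e2 := mul_le_mul_of_nonneg_left (harm j X hXj) (by positivity : 0 ≤ 8 * (D * B) ^ 2 / Q)
    refine e2.trans (le_of_eq ?_)
    ring
  have h4 : (∑ p ∈ PP X, (2 * (Real.sqrt 2 * (D * B) / Real.sqrt Q)) ^ 2 / p) ^ k ≤ (8 * (D * B) ^ 2 * (((j : ℝ) + 2) / Q)) ^ k :=
    pow_le_pow_left₀ (sum_nonneg fun p _ => by positivity) h3 k
  have hZ' : ∑ t ∈ kbox N L, Z t ^ (2 * k) = ∑ t ∈ kbox N L, (∑ p ∈ PP X, (Hw val b (cI Q X) p (fun i => (t i : ZMod p)) - mn (Hw val b (cI Q X)) p)) ^ (2 * k) := by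
    rw [hZ]
  rw [hZ'] at h1
  refine h1.trans (h2.trans ?_)
  rw [← hM]
  have h5 : M * (∑ p ∈ PP X, (2 * (Real.sqrt 2 * (D * B) / Real.sqrt Q)) ^ 2 / p) ^ k ≤
      (M * (8 * (D * B) ^ 2) ^ k + 2 * (D * B)) * (((j : ℝ) + 2) / Q) ^ k := by
    refine (mul_le_mul_of_nonneg_left h4 hM0).trans ?_
    rw [mul_pow, ← mul_assoc]
    refine mul_le_mul_of_nonneg_right ?_ (by positivity)
    have : 0 ≤ 2 * (D * B) := by positivity
    linarith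
  have h6 := mul_le_mul_of_nonneg_left h5 hP0.le
  refine h6.trans (le_of_eq ?_)
  ring

/-- chains of blocks -/
lemma chain (S : ℕ → ℝ) (m : ℕ → ℝ) (j₀ J : ℕ) (hS : ∀ j, j₀ ≤ j → j ≤ J → ∀ X, 2 ^ j ≤ X → X ≤ 2 ^ (j + 1) → |S X - S (2 ^ j)| ≤ m j)
    (j₁ : ℕ) (h0 : j₀ ≤ j₁) : ∀ i, j₁ + i ≤ J → |S (2 ^ (j₁ + i)) - S (2 ^ j₁)| ≤ ∑ s ∈ range i, m (j₁ + s) := by
  intro i
  induction i with
  | zero =>
    intro _
    simp
  | succ i ih =>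
    intro hi
    have h1 := ih (by omega)
    have h2 := hS (j₁ + i) (by omega) (by omega) (2 ^ (j₁ + i + 1)) (Nat.pow_le_pow_right (by norm_num) (by omega)) le_rfl
    rw [sum_range_succ]
    have h3 : S (2 ^ (j₁ + (i + 1))) - S (2 ^ j₁) = (S (2 ^ (j₁ + i + 1)) - S (2 ^ (j₁ + i))) + (S (2 ^ (j₁ + i)) - S (2 ^ j₁)) := by
      rw [show j₁ + (i + 1) = j₁ + i + 1 by ring]
      ring
    rw [h3]
    refine (abs_add_le _ _).trans ?_
    linarith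

/-- sums with a geometric majorant -/
lemma chain_two (S : ℕ → ℝ) (c ρ : ℝ) (hc : 0 ≤ c) (hρ0 : 0 < ρ) (hρ1 : ρ < 1) (j₀ J : ℕ)
    (hS : ∀ j, j₀ ≤ j → j ≤ J → ∀ X, 2 ^ j ≤ X → X ≤ 2 ^ (j + 1) → |S X - S (2 ^ j)| ≤ c * ρ ^ j)
    (X X' : ℕ) (hX0 : 1 ≤ X) (h0 : 2 ^ j₀ ≤ X) (hXX : X ≤ X') (h1 : X' < 2 ^ (J + 1)) :
    |S X' - S X| ≤ 3 * c / (1 - ρ) * ρ ^ Nat.log 2 X := by
  obtain ⟨a, ha⟩ : ∃ a : ℕ, a = Nat.log 2 X := ⟨_, rfl⟩
  obtain ⟨a', ha'⟩ : ∃ a' : ℕ, a' = Nat.log 2 X' := ⟨_, rfl⟩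
  have hXne : X ≠ 0 := by omega
  have hX'ne : X' ≠ 0 := by omega
  have e1 : 2 ^ a ≤ X := by rw [ha]; exact Nat.pow_log_le_self 2 hXne
  have e2 : X < 2 ^ (a + 1) := by rw [ha]; exact Nat.lt_pow_succ_log_self (by norm_num) X
  have e3 : 2 ^ a' ≤ X' := by rw [ha']; exact Nat.pow_log_le_self 2 hX'ne
  have e4 : X' < 2 ^ (a' + 1) := by rw [ha']; exact Nat.lt_pow_succ_log_self (by norm_num) X'
  have haa : a ≤ a' := by rw [ha, ha']; exact Nat.log_mono_right hXX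
  have hj0 : j₀ ≤ a := by
    rw [ha]
    exact Nat.le_log_of_pow_le (by norm_num) h0
  have haJ : a' ≤ J := by
    have : 2 ^ a' < 2 ^ (J + 1) := lt_of_le_of_lt e3 h1
    have := (Nat.pow_lt_pow_iff_right (by norm_num : 1 < 2)).1 this
    omega
  obtain ⟨i, hi⟩ := Nat.exists_eq_add_of_le haa
  have f1 := hS a hj0 (haa.trans haJ) X e1 e2.le
  have f2 := hS a' (hj0.trans haa) haJ X' e3 e4.le
  have f3 := chain S (fun j => c * ρ ^ j) j₀ J hS a hj0 i (by omega)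
  rw [← hi] at f3
  have hgeo : ∑ s ∈ range i, c * ρ ^ (a + s) ≤ c / (1 - ρ) * ρ ^ a := by
    have h2 : ∑ s ∈ range i, c * ρ ^ (a + s) = (c * ρ ^ a) * ∑ s ∈ range i, ρ ^ s := by
      rw [mul_sum]
      refine sum_congr rfl fun s _ => ?_
      rw [pow_add]
      ring
    rw [h2]
    have h3 : ∑ s ∈ range i, ρ ^ s ≤ 1 / (1 - ρ) := by
      rw [geom_sum_eq hρ1.ne, le_div_iff₀ (by linarith)]
      have h4 : (ρ ^ i - 1) / (ρ - 1) * (1 - ρ) = 1 - ρ ^ i := by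
        have : ρ - 1 ≠ 0 := by linarith
        field_simp
        ring
      rw [h4]
      have : 0 ≤ ρ ^ i := by positivity
      linarith
    refine (mul_le_mul_of_nonneg_left h3 (by positivity)).trans (le_of_eq ?_)
    ring
  have hra : ρ ^ a' ≤ ρ ^ a := pow_le_pow_of_le_one hρ0.le hρ1.le haa
  have hone : c * ρ ^ a ≤ c / (1 - ρ) * ρ ^ a := by
    refine mul_le_mul_of_nonneg_right ?_ (by positivity)
    rw [le_div_iff₀ (by linarith)]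
    nlinarith
  have h5 : S X' - S X = (S X' - S (2 ^ a')) + (S (2 ^ a') - S (2 ^ a)) - (S X - S (2 ^ a)) := by ring
  rw [h5, ← ha]
  have h6 := abs_sub ((S X' - S (2 ^ a')) + (S (2 ^ a') - S (2 ^ a))) (S X - S (2 ^ a))
  have h7 := abs_add_le (S X' - S (2 ^ a')) (S (2 ^ a') - S (2 ^ a))
  have h8 : c * ρ ^ a' ≤ c * ρ ^ a := mul_le_mul_of_nonneg_left hra hc
  have h9 : 3 * c / (1 - ρ) * ρ ^ a = c / (1 - ρ) * ρ ^ a + c / (1 - ρ) * ρ ^ a + c / (1 - ρ) * ρ ^ a := by ring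
  rw [h9]
  have h10 : |S (2 ^ a') - S (2 ^ a)| ≤ c / (1 - ρ) * ρ ^ a := f3.trans hgeo
  linarith

end Q282.TP
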