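import Pool.Agent.Q282.TP.Blk

/-!
# Convergence with a power saving: the theorem
-/

set_option autoImplicit false
set_option linter.unusedSectionVars false

namespace Q282.TP

open Finset NumberField IsDedekindDomain Filter
open Q282.NF Q282.GK Q282.CL Q282.MN Q282.JB
open Q282.BP (PP bx mem_bx card_bx)

lemma rpow_two (a : ℝ) (j : ℕ) : ((2 : ℝ) ^ a) ^ j = ((2 : ℝ) ^ j) ^ a := by
  rw [← Real.rpow_natCast, ← Real.rpow_mul (by norm_num), ← Real.rpow_natCast, ← Real.rpow_mul (by norm_num), mul_comm]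

/-- powers of the dyadic part -/
lemma dyadic (a : ℝ) (ha : 0 ≤ a) (X : ℕ) (hX : 1 ≤ X) : ((2 : ℝ) ^ (-a)) ^ Nat.log 2 X ≤ (2 : ℝ) ^ a * (X : ℝ) ^ (-a) := by
  rw [rpow_two]
  have h1 : X < 2 ^ (Nat.log 2 X + 1) := Nat.lt_pow_succ_log_self (by norm_num) X
  have h2 : (X : ℝ) ≤ 2 * (2 : ℝ) ^ Nat.log 2 X := by
    rw [← pow_succ']
    exact_mod_cast h1.le
  have hX0 : (0 : ℝ) < X := by exact_mod_cast hX
  have h3 : (X : ℝ) ^ a ≤ (2 * (2 : ℝ) ^ Nat.log 2 X) ^ a := Real.rpow_le_rpow hX0.le h2 ha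
  rw [Real.mul_rpow (by norm_num) (by positivity)] at h3
  rw [Real.rpow_neg (by positivity), Real.rpow_neg hX0.le, ← div_eq_mul_inv, inv_eq_one_div, div_le_div_iff₀ (by positivity) (by positivity), one_mul]
  exact h3

/-- the bad block -/
lemma bad_block (K : Type) [Field K] [NumberField K] (ι : Type) [Fintype ι] [DecidableEq ι] (B : ℝ) (hB : 0 < B) (A η : ℝ) (hA : 0 < A)
    (hη : 0 < η) (k : ℕ) (hk : 1 ≤ k) (hkη : A + 4 ≤ 2 * k * η) :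
    ∃ C₁ : ℝ, 0 ≤ C₁ ∧ ∃ C : ℝ, 0 ≤ C ∧ ∀ (b : Fin (Module.finrank ℚ K) → 𝓞 K), (∀ x : 𝓞 K, ∃ a : Fin (Module.finrank ℚ K) → ℤ, x = ∑ j, (a j : 𝓞 K) * b j) →
    ∀ val : HeightOneSpectrum (𝓞 K) → (ι → 𝓞 K) → ℝ, LocZ K ι B val → ∀ j : ℕ,
    ∀ T : ℝ, 0 < T → 2 * Fintype.card (ι × Fin (Module.finrank ℚ K)) * ((2 : ℝ) ^ (j + 1)) ^ (5 * k) ≤ T →
    ∀ (N : ι × Fin (Module.finrank ℚ K) → ℤ) (L : ι × Fin (Module.finrank ℚ K) → ℕ), (∀ i, T ≤ L i) →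
    ∀ E : Finset (ι × Fin (Module.finrank ℚ K) → ℤ), E ⊆ kbox N L →
      (∀ n ∈ E, ∃ X : ℕ, 2 ^ j ≤ X ∧ X ≤ 2 ^ (j + 1) ∧ ((2 : ℝ) ^ (-(1 / 2 - η))) ^ j + C₁ / Real.sqrt ((2 : ℝ) ^ j) <
        |∑ v ∈ SX K X, val v (comb b n) - ∑ v ∈ SX K (2 ^ j), val v (comb b n)|) →
      (E.card : ℝ) ≤ C * ((2 : ℝ) ^ (-(A + 1))) ^ j * ∏ i, (L i : ℝ) := by
  classical
  obtain ⟨C₁, hC₁, h⟩ := blk K ι B hB k hk
  refine ⟨C₁, hC₁, 32 * C₁ * k.factorial, by positivity, ?_⟩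
  intro b hb val hloc j T hT0 hT N L hL E hE hEx
  obtain ⟨q, hq⟩ : ∃ q : ℝ, q = (2 : ℝ) ^ j := ⟨_, rfl⟩
  have hq1 : 1 ≤ q := by rw [hq]; exact one_le_pow₀ (by norm_num)
  have hq0 : 0 < q := by linarith
  obtain ⟨l, hl⟩ : ∃ l : ℝ, l = ((2 : ℝ) ^ (-(1 / 2 - η))) ^ j := ⟨_, rfl⟩
  have hl0 : 0 < l := by rw [hl]; positivity
  have hP0 : 0 < ∏ i, (L i : ℝ) := prod_pos fun i _ => hT0.trans_le (hL i)
  rw [← hl] at hEx
  obtain ⟨W, hW⟩ : ∃ W : ℕ → Finset (ι × Fin (Module.finrank ℚ K) → ℤ), W = fun X => (kbox N L).filter fun n =>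
      l + C₁ / Real.sqrt ((2 : ℝ) ^ j) < |∑ v ∈ SX K X, val v (comb b n) - ∑ v ∈ SX K (2 ^ j), val v (comb b n)| := ⟨_, rfl⟩
  have hWX : ∀ X ∈ Icc (2 ^ j) (2 ^ (j + 1)), ((W X).card : ℝ) * l ^ (2 * k) ≤ C₁ * (((j : ℝ) + 2) / q) ^ k * ∏ i, (L i : ℝ) := by
    intro X hX
    rw [mem_Icc] at hX
    rw [hq]
    refine h b hb val hloc j X hX.1 hX.2 T hT0 ?_ N L hL l hl0 (W X) (by rw [hW]; exact filter_subset _ _) (fun n hn => by
      rw [hW] at hn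
      exact (mem_filter.1 hn).2)
    refine le_trans ?_ hT
    refine mul_le_mul_of_nonneg_left (pow_le_pow_left₀ (Nat.cast_nonneg _) ?_ _) (by positivity)
    exact_mod_cast hX.2
  have hEW : E ⊆ (Icc (2 ^ j) (2 ^ (j + 1))).biUnion W := by
    intro n hn
    obtain ⟨X, hX1, hX2, hX3⟩ := hEx n hn
    rw [mem_biUnion]
    refine ⟨X, mem_Icc.2 ⟨hX1, hX2⟩, ?_⟩
    rw [hW]
    exact mem_filter.2 ⟨hE hn, hX3⟩
  have h1 : (E.card : ℝ) ≤ ∑ X ∈ Icc (2 ^ j) (2 ^ (j + 1)), ((W X).card : ℝ) := by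
    exact_mod_cast (card_le_card hEW).trans card_biUnion_le
  have h2 : (E.card : ℝ) * l ^ (2 * k) ≤ (2 * q) * (C₁ * (((j : ℝ) + 2) / q) ^ k * ∏ i, (L i : ℝ)) := by
    refine (mul_le_mul_of_nonneg_right h1 (by positivity)).trans ?_
    rw [sum_mul]
    refine (sum_le_sum hWX).trans ?_
    rw [sum_const, nsmul_eq_mul]
    refine mul_le_mul_of_nonneg_right ?_ (by positivity)
    rw [Nat.card_Icc]
    have h3 : 2 ^ (j + 1) + 1 - 2 ^ j ≤ 2 * 2 ^ j := by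
      have : 1 ≤ 2 ^ j := Nat.one_le_two_pow
      rw [pow_succ]
      omega
    rw [hq]
    exact_mod_cast h3
  have h3 : ((j : ℝ) + 2) ^ k ≤ k.factorial * (16 * q ^ 2) := by
    have e1 := Real.pow_div_factorial_le_exp ((j : ℝ) + 2) (by positivity) k
    rw [div_le_iff₀ (by positivity)] at e1
    have e2 : Real.exp ((j : ℝ) + 2) ≤ 16 * q ^ 2 := by
      have e3 : Real.exp ((j : ℝ) + 2) = Real.exp 1 ^ (j + 2) := by
        rw [← Real.exp_nat_mul]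
        push_cast
        ring_nf
      rw [e3]
      have e4 : Real.exp 1 ≤ 4 := by linarith [Real.exp_one_lt_three]
      refine (pow_le_pow_left₀ (Real.exp_pos _).le e4 _).trans (le_of_eq ?_)
      rw [hq, pow_add, ← pow_mul, mul_comm j 2, pow_mul]
      norm_num
      ring
    calc _ ≤ Real.exp ((j : ℝ) + 2) * k.factorial := e1
      _ ≤ 16 * q ^ 2 * k.factorial := mul_le_mul_of_nonneg_right e2 (by positivity)
      _ = _ := by ring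
  have hlq : l = q ^ (-(1 / 2 - η)) := by rw [hl, rpow_two, hq]
  have hl2 : l ^ (2 * k) = q ^ (-((k : ℝ) - 2 * k * η)) := by
    rw [hlq, ← Real.rpow_natCast, ← Real.rpow_mul hq0.le]
    congr 1
    push_cast
    ring
  have h4 : (E.card : ℝ) ≤ (32 * C₁ * k.factorial * ∏ i, (L i : ℝ)) * (q ^ 3 / q ^ k / l ^ (2 * k)) := by
    have hlk : 0 < l ^ (2 * k) := by positivity
    rw [← mul_div_assoc, le_div_iff₀ hlk]
    refine h2.trans ?_
    rw [div_pow]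
    have e1 : 2 * q * (C₁ * (((j : ℝ) + 2) ^ k / q ^ k) * ∏ i, (L i : ℝ)) = (2 * q * C₁ * (∏ i, (L i : ℝ)) / q ^ k) * ((j : ℝ) + 2) ^ k := by ring
    rw [e1]
    refine (mul_le_mul_of_nonneg_left h3 (by positivity)).trans (le_of_eq ?_)
    ring
  refine h4.trans ?_
  have h5 : q ^ 3 / q ^ k / l ^ (2 * k) ≤ ((2 : ℝ) ^ (-(A + 1))) ^ j := by
    rw [rpow_two, ← hq, hl2, ← Real.rpow_natCast, ← Real.rpow_natCast, ← Real.rpow_sub hq0, ← Real.rpow_sub hq0]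
    refine Real.rpow_le_rpow_of_exponent_le hq1 ?_
    push_cast
    linarith
  refine (mul_le_mul_of_nonneg_left h5 (by positivity)).trans (le_of_eq ?_)
  ring

/-- convergence with a power saving for almost all members -/
theorem edge (K : Type) [Field K] [NumberField K] (ι : Type) [Fintype ι] [DecidableEq ι] (B ε A : ℝ) (hB : 0 < B) (hε : 0 < ε) (hA : 0 < A) :
    ∃ c : ℝ, 0 < c ∧ ∃ C : ℝ, 0 ≤ C ∧ ∀ (b : Fin (Module.finrank ℚ K) → 𝓞 K), (∀ x : 𝓞 K, ∃ a : Fin (Module.finrank ℚ K) → ℤ, x = ∑ j, (a j : 𝓞 K) * b j) →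
    ∀ val : HeightOneSpectrum (𝓞 K) → (ι → 𝓞 K) → ℝ, LocZ K ι B val →
    ∀ (N : ι × Fin (Module.finrank ℚ K) → ℤ) (L : ι × Fin (Module.finrank ℚ K) → ℕ) (T : ℝ), 0 < T → (∀ k, T ≤ L k) → ∀ X₀ : ℕ, 1 ≤ X₀ →
    ∀ E : Finset (ι × Fin (Module.finrank ℚ K) → ℤ), E ⊆ kbox N L →
      (∀ n ∈ E, ∃ X X' : ℕ, X₀ ≤ X ∧ X ≤ X' ∧ (X' : ℝ) ≤ T ^ c ∧ (X : ℝ) ^ (-1 / 2 + ε) <
        |∑ v ∈ SX K X', val v (comb b n) - ∑ v ∈ SX K X, val v (comb b n)|) →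
      (E.card : ℝ) ≤ C * (X₀ : ℝ) ^ (-A) * ∏ i, (L i : ℝ) := by
  classical
  obtain ⟨ε', hε'⟩ : ∃ ε' : ℝ, ε' = min ε (1 / 4) := ⟨_, rfl⟩
  have hε'0 : 0 < ε' := by rw [hε']; exact lt_min hε (by norm_num)
  have hε'1 : ε' ≤ 1 / 4 := by rw [hε']; exact min_le_right _ _
  have hε'2 : ε' ≤ ε := by rw [hε']; exact min_le_left _ _
  obtain ⟨η, hη⟩ : ∃ η : ℝ, η = ε' / 2 := ⟨_, rfl⟩
  have hη0 : 0 < η := by rw [hη]; positivity
  have hη1 : η ≤ 1 / 8 := by rw [hη]; linarith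
  obtain ⟨k, hk⟩ : ∃ k : ℕ, k = ⌈(A + 4) / (2 * η)⌉₊ + 1 := ⟨_, rfl⟩
  have hk1 : 1 ≤ k := by omega
  have hkη : A + 4 ≤ 2 * k * η := by
    have h1 : (A + 4) / (2 * η) ≤ k := by
      rw [hk]
      push_cast
      have := Nat.le_ceil ((A + 4) / (2 * η))
      linarith
    rw [div_le_iff₀ (by positivity)] at h1
    linarith
  obtain ⟨C₁, hC₁, C₂, hC₂, hblock⟩ := bad_block K ι B hB A η hA hη0 k hk1 hkη
  obtain ⟨a, ha⟩ : ∃ a : ℝ, a = 1 / 2 - η := ⟨_, rfl⟩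
  have ha0 : 0 < a := by rw [ha]; linarith
  have ha1 : a ≤ 1 := by rw [ha]; linarith
  obtain ⟨ρ, hρ⟩ : ∃ ρ : ℝ, ρ = (2 : ℝ) ^ (-a) := ⟨_, rfl⟩
  have hρ0 : 0 < ρ := by rw [hρ]; positivity
  have hρ1 : ρ < 1 := by
    rw [hρ]
    exact Real.rpow_lt_one_of_one_lt_of_neg (by norm_num) (by linarith)
  obtain ⟨σ, hσ⟩ : ∃ σ : ℝ, σ = (2 : ℝ) ^ (-(A + 1)) := ⟨_, rfl⟩
  have hσ0 : 0 < σ := by rw [hσ]; positivity
  have hσ1 : σ ≤ 1 / 2 := by
    rw [hσ]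
    calc (2 : ℝ) ^ (-(A + 1)) ≤ (2 : ℝ) ^ (-1 : ℝ) := Real.rpow_le_rpow_of_exponent_le (by norm_num) (by linarith)
      _ = 1 / 2 := by
        rw [Real.rpow_neg_one]
        norm_num
  obtain ⟨C₆, hC₆⟩ : ∃ C₆ : ℝ, C₆ = 3 * (1 + C₁) / (1 - ρ) * 2 := ⟨_, rfl⟩
  have hC₆0 : 0 < C₆ := by
    rw [hC₆]
    have : 0 < 1 - ρ := by linarith
    positivity
  obtain ⟨δ, hδ⟩ : ∃ δ : ℕ, δ = Fintype.card (ι × Fin (Module.finrank ℚ K)) := ⟨_, rfl⟩
  obtain ⟨W, hW⟩ : ∃ W : ℝ, W = 2 * δ * (32 : ℝ) ^ k := ⟨_, rfl⟩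
  have hW0 : 0 ≤ W := by rw [hW]; positivity
  obtain ⟨Xm, hXm⟩ : ∃ Xm : ℝ, Xm = max (C₆ ^ (1 / η)) (max (W ^ 2) 1) := ⟨_, rfl⟩
  have hXm1 : 1 ≤ Xm := by rw [hXm]; exact (le_max_right _ _).trans (le_max_right _ _)
  have hk0 : (0 : ℝ) < k := by exact_mod_cast hk1
  obtain ⟨c, hc⟩ : ∃ c : ℝ, c = 1 / (10 * k) := ⟨_, rfl⟩
  have hc0 : 0 < c := by rw [hc]; positivity
  refine ⟨c, hc0, C₂ * (2 * 2 ^ (A + 1)) + Xm ^ A, by positivity, ?_⟩
  intro b hb val hloc N L T hT0 hL X₀ hX₀ E hE hEx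
  have hP0 : 0 < ∏ i, (L i : ℝ) := prod_pos fun i _ => hT0.trans_le (hL i)
  have hX₀0 : (0 : ℝ) < X₀ := by exact_mod_cast hX₀
  have hX₀1 : (1 : ℝ) ≤ X₀ := by exact_mod_cast hX₀
  have hX₀A : 0 < (X₀ : ℝ) ^ (-A) := by positivity
  rcases lt_or_ge (X₀ : ℝ) Xm with hsmall | hlarge
  · -- small X₀
    have h1 : (E.card : ℝ) ≤ ∏ i, (L i : ℝ) := by
      have h2 := card_le_card hE
      have h3 := Q282.PX.kbox_card N L
      rw [h3] at h2
      exact_mod_cast h2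
    have h2 : 1 ≤ Xm ^ A * (X₀ : ℝ) ^ (-A) := by
      rw [Real.rpow_neg hX₀0.le, ← div_eq_mul_inv, one_le_div (by positivity)]
      exact Real.rpow_le_rpow hX₀0.le hsmall.le hA.le
    have h3 : (0 : ℝ) ≤ C₂ * (2 * 2 ^ (A + 1)) * (X₀ : ℝ) ^ (-A) := by positivity
    calc (E.card : ℝ) ≤ 1 * ∏ i, (L i : ℝ) := by rw [one_mul]; exact h1
      _ ≤ _ := by
        refine mul_le_mul_of_nonneg_right ?_ hP0.le
        rw [add_mul]
        linarith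
  · rcases E.eq_empty_or_nonempty with hE0 | ⟨n₀, hn₀⟩
    · rw [hE0, card_empty, Nat.cast_zero]
      positivity
    obtain ⟨X, X', g1, g2, g3, -⟩ := hEx n₀ hn₀
    have hXT : (X₀ : ℝ) ≤ T ^ c := by
      have : (X₀ : ℝ) ≤ X' := by exact_mod_cast g1.trans g2
      exact this.trans g3
    have hT1 : 1 ≤ T := by
      by_contra hlt
      push Not at hlt
      have h1 := Real.rpow_lt_one hT0.le hlt hc0
      linarith
    have hc1 : c ≤ 1 := by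
      rw [hc, div_le_one (by positivity)]
      have : (1 : ℝ) ≤ k := by exact_mod_cast hk1
      linarith
    have hTX : (X₀ : ℝ) ≤ T := by
      refine hXT.trans ?_
      calc T ^ c ≤ T ^ (1 : ℝ) := Real.rpow_le_rpow_of_exponent_le hT1 hc1
        _ = T := Real.rpow_one T
    obtain ⟨Y, hY⟩ : ∃ Y : ℕ, Y = ⌊T ^ c⌋₊ := ⟨_, rfl⟩
    have hYT : (Y : ℝ) ≤ T ^ c := by rw [hY]; exact Nat.floor_le (by positivity)
    have hX₀Y : X₀ ≤ Y := by rw [hY]; exact Nat.le_floor hXT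
    obtain ⟨J, hJ⟩ : ∃ J : ℕ, J = Nat.log 2 Y := ⟨_, rfl⟩
    have hYne : Y ≠ 0 := by omega
    have hJY : 2 ^ J ≤ Y := by rw [hJ]; exact Nat.pow_log_le_self 2 hYne
    have hYJ : Y < 2 ^ (J + 1) := by rw [hJ]; exact Nat.lt_pow_succ_log_self (by norm_num) Y
    obtain ⟨j₀, hj₀⟩ : ∃ j₀ : ℕ, j₀ = Nat.log 2 X₀ := ⟨_, rfl⟩
    have hj₀X : 2 ^ j₀ ≤ X₀ := by rw [hj₀]; exact Nat.pow_log_le_self 2 (by omega)
    -- the condition on T
    have hTj : ∀ j, j ≤ J → 2 * (Fintype.card (ι × Fin (Module.finrank ℚ K)) : ℝ) * ((2 : ℝ) ^ (j + 1)) ^ (5 * k) ≤ T := by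
      intro j hj
      rw [← hδ]
      have h1 : (2 : ℝ) ^ (j + 1) ≤ 2 * T ^ c := by
        rw [pow_succ']
        refine mul_le_mul_of_nonneg_left ?_ (by norm_num)
        refine le_trans ?_ hYT
        have : 2 ^ j ≤ Y := (Nat.pow_le_pow_right (by norm_num) hj).trans hJY
        exact_mod_cast this
      have h2 : ((2 : ℝ) ^ (j + 1)) ^ (5 * k) ≤ (32 : ℝ) ^ k * Real.sqrt T := by
        refine (pow_le_pow_left₀ (by positivity) h1 _).trans (le_of_eq ?_)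
        rw [mul_pow, pow_mul, ← Real.rpow_natCast (T ^ c), ← Real.rpow_mul hT0.le, Real.sqrt_eq_rpow]
        congr 1
        · norm_num
        · congr 1
          rw [hc]
          push_cast
          field_simp
          norm_num
      have h3 : W ≤ Real.sqrt T := by
        refine Real.le_sqrt_of_sq_le ?_
        have h4 : W ^ 2 ≤ Xm := by rw [hXm]; exact (le_max_left _ _).trans (le_max_right _ _)
        linarith
      calc 2 * (δ : ℝ) * ((2 : ℝ) ^ (j + 1)) ^ (5 * k) ≤ 2 * (δ : ℝ) * ((32 : ℝ) ^ k * Real.sqrt T) :=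
            mul_le_mul_of_nonneg_left h2 (by positivity)
        _ = W * Real.sqrt T := by rw [hW]; ring
        _ ≤ Real.sqrt T * Real.sqrt T := mul_le_mul_of_nonneg_right h3 (Real.sqrt_nonneg _)
        _ = T := Real.mul_self_sqrt hT0.le
    -- the bad sets
    obtain ⟨V, hV⟩ : ∃ V : ℕ → Finset (ι × Fin (Module.finrank ℚ K) → ℤ), V = fun j => (kbox N L).filter fun n =>
        ∃ X : ℕ, 2 ^ j ≤ X ∧ X ≤ 2 ^ (j + 1) ∧ ρ ^ j + C₁ / Real.sqrt ((2 : ℝ) ^ j) <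
          |∑ v ∈ SX K X, val v (comb b n) - ∑ v ∈ SX K (2 ^ j), val v (comb b n)| := ⟨_, rfl⟩
    have hVj : ∀ j ∈ Icc j₀ J, ((V j).card : ℝ) ≤ C₂ * σ ^ j * ∏ i, (L i : ℝ) := by
      intro j hj
      rw [mem_Icc] at hj
      rw [hσ]
      refine hblock b hb val hloc j T hT0 (hTj j hj.2) N L hL (V j) (by rw [hV]; exact filter_subset _ _) ?_
      intro n hn
      rw [hV] at hn
      have h1 := (mem_filter.1 hn).2
      rw [hρ, ha] at h1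
      exact h1
    have hsub : E ⊆ (Icc j₀ J).biUnion V := by
      intro n hn
      by_contra hno
      rw [mem_biUnion] at hno
      push Not at hno
      obtain ⟨X, X', f1, f2, f3, f4⟩ := hEx n hn
      have hX1 : 1 ≤ X := hX₀.trans f1
      have hXr : (1 : ℝ) ≤ X := by exact_mod_cast hX1
      have hX'Y : X' ≤ Y := by rw [hY]; exact Nat.le_floor f3
      have hch := chain_two (fun X => ∑ v ∈ SX K X, val v (comb b n)) (1 + C₁) ρ (by positivity) hρ0 hρ1 j₀ J (fun j hj1 hj2 Z hZ1 hZ2 => by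
        have h1 := hno j (mem_Icc.2 ⟨hj1, hj2⟩)
        rw [hV] at h1
        have h2 : ¬ ∃ X : ℕ, 2 ^ j ≤ X ∧ X ≤ 2 ^ (j + 1) ∧ ρ ^ j + C₁ / Real.sqrt ((2 : ℝ) ^ j) <
          |∑ v ∈ SX K X, val v (comb b n) - ∑ v ∈ SX K (2 ^ j), val v (comb b n)| := fun h3 => h1 (mem_filter.2 ⟨hE hn, h3⟩)
        push Not at h2
        refine (h2 Z hZ1 hZ2).trans ?_
        rw [add_mul, one_mul]
        refine add_le_add le_rfl ?_
        rw [div_eq_mul_inv]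
        refine mul_le_mul_of_nonneg_left ?_ hC₁
        have h4 : (Real.sqrt ((2 : ℝ) ^ j))⁻¹ = ((2 : ℝ) ^ (-(1 / 2) : ℝ)) ^ j := by
          rw [rpow_two, Real.rpow_neg (by positivity), Real.sqrt_eq_rpow]
        rw [h4, hρ]
        refine pow_le_pow_left₀ (by positivity) ?_ j
        refine Real.rpow_le_rpow_of_exponent_le (by norm_num) ?_
        rw [ha]
        linarith) X X' hX1 (hj₀X.trans f1) f2 (lt_of_le_of_lt hX'Y hYJ)
      have h5 : ρ ^ Nat.log 2 X ≤ 2 * (X : ℝ) ^ (-a) := by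
        rw [hρ]
        refine (dyadic a ha0.le X hX1).trans ?_
        refine mul_le_mul_of_nonneg_right ?_ (by positivity)
        calc (2 : ℝ) ^ a ≤ (2 : ℝ) ^ (1 : ℝ) := Real.rpow_le_rpow_of_exponent_le (by norm_num) ha1
          _ = 2 := Real.rpow_one 2
      have h1ρ : 0 < 1 - ρ := by linarith
      have h6 : 3 * (1 + C₁) / (1 - ρ) * ρ ^ Nat.log 2 X ≤ C₆ * (X : ℝ) ^ (-a) := by
        refine (mul_le_mul_of_nonneg_left h5 (by positivity)).trans (le_of_eq ?_)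
        rw [hC₆]
        ring
      have h7 : C₆ ≤ (X : ℝ) ^ η := by
        have h8 : C₆ ^ (1 / η) ≤ X := by
          have h9 : C₆ ^ (1 / η) ≤ Xm := by rw [hXm]; exact le_max_left _ _
          have h10 : (X₀ : ℝ) ≤ X := by exact_mod_cast f1
          linarith
        have h9 := Real.rpow_le_rpow (by positivity) h8 hη0.le
        rwa [← Real.rpow_mul hC₆0.le, one_div_mul_cancel hη0.ne', Real.rpow_one] at h9
      have h8 : C₆ * (X : ℝ) ^ (-a) ≤ (X : ℝ) ^ (-1 / 2 + ε) := by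
        refine (mul_le_mul_of_nonneg_right h7 (by positivity)).trans ?_
        rw [← Real.rpow_add (by linarith)]
        refine Real.rpow_le_rpow_of_exponent_le hXr ?_
        rw [ha]
        linarith
      exact absurd (hch.trans (h6.trans h8)) (not_le.2 f4)
    have h1 : (E.card : ℝ) ≤ ∑ j ∈ Icc j₀ J, ((V j).card : ℝ) := by
      exact_mod_cast (card_le_card hsub).trans card_biUnion_le
    have h2 : ∑ j ∈ Icc j₀ J, σ ^ j ≤ 2 * σ ^ j₀ := by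
      have h3 : ∑ j ∈ Icc j₀ J, σ ^ j = ∑ j ∈ Ico j₀ (J + 1), σ ^ j := by
        congr 1
      rw [h3, sum_Ico_eq_sum_range]
      have h4 : ∀ s ∈ range (J + 1 - j₀), σ ^ (j₀ + s) = σ ^ j₀ * σ ^ s := fun s _ => pow_add _ _ _
      rw [sum_congr rfl h4, ← mul_sum, mul_comm]
      refine mul_le_mul_of_nonneg_right ?_ (by positivity)
      have h5 : ∑ s ∈ range (J + 1 - j₀), σ ^ s ≤ 1 / (1 - σ) := by
        rw [geom_sum_eq (by linarith : σ ≠ 1), le_div_iff₀ (by linarith)]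
        have h6 : (σ ^ (J + 1 - j₀) - 1) / (σ - 1) * (1 - σ) = 1 - σ ^ (J + 1 - j₀) := by
          have : σ - 1 ≠ 0 := by linarith
          field_simp
          ring
        rw [h6]
        have : 0 ≤ σ ^ (J + 1 - j₀) := by positivity
        linarith
      refine h5.trans ?_
      rw [div_le_iff₀ (by linarith)]
      linarith
    have h3 : σ ^ j₀ ≤ (2 : ℝ) ^ (A + 1) * (X₀ : ℝ) ^ (-A) := by
      rw [hσ, hj₀]
      refine (dyadic (A + 1) (by linarith) X₀ hX₀).trans ?_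
      refine mul_le_mul_of_nonneg_left ?_ (by positivity)
      exact Real.rpow_le_rpow_of_exponent_le hX₀1 (by linarith)
    have h4 : ∑ j ∈ Icc j₀ J, ((V j).card : ℝ) ≤ C₂ * (2 * ((2 : ℝ) ^ (A + 1) * (X₀ : ℝ) ^ (-A))) * ∏ i, (L i : ℝ) := by
      refine (sum_le_sum hVj).trans ?_
      rw [← sum_mul, ← mul_sum]
      refine mul_le_mul_of_nonneg_right (mul_le_mul_of_nonneg_left ?_ hC₂) hP0.le
      linarith
    refine (h1.trans h4).trans ?_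
    refine mul_le_mul_of_nonneg_right ?_ hP0.le
    have h5 : 0 ≤ Xm ^ A * (X₀ : ℝ) ^ (-A) := by positivity
    rw [add_mul]
    have h6 : C₂ * (2 * ((2 : ℝ) ^ (A + 1) * (X₀ : ℝ) ^ (-A))) = C₂ * (2 * 2 ^ (A + 1)) * (X₀ : ℝ) ^ (-A) := by ring
    linarith

end Q282.TP
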