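import Pool.Agent.Q282.JB.Brown

/-!
# Sums of small local values over the primes of a number field: convergence with a power saving for almost all members
-/

set_option autoImplicit false
set_option linter.unusedSectionVars false

namespace Q282.TP

open Finset NumberField IsDedekindDomain Filter
open Q282.NF Q282.GK Q282.CL Q282.MN Q282.JB
open Q282.BP (PP bx mem_bx card_bx)
open Pool.Agent.H921R2.TatePole (below deg nm nm_eq)

/-- high moments over boxes -/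
theorem kmom {κ : Type} [Fintype κ] [DecidableEq κ] (j : ℕ) (hj : 1 ≤ j) (B : ℝ) (hB : 0 < B) (S : Finset ℕ) (hS : ∀ p ∈ S, p.Prime)
    (Y : ℕ) (hY : ∀ p ∈ S, p ≤ Y) (H : (p : ℕ) → (κ → ZMod p) → ℝ) (hH : ∀ p : ℕ, p.Prime → ∀ u, |H p u| ≤ B / Real.sqrt p)
    (T : ℝ) (hT0 : 0 < T) (hT : 2 * Fintype.card κ * (Y : ℝ) ^ (5 * j) ≤ T) (N : κ → ℤ) (L : κ → ℕ) (hL : ∀ i, T ≤ L i) :
    ∑ t ∈ kbox N L, (∑ p ∈ S, (H p (fun i => (t i : ZMod p)) - mn H p)) ^ (2 * j) ≤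
      (∏ i, (L i : ℝ)) * ((6 * (2 * j).factorial + 1) * (∑ p ∈ S, (2 * B) ^ 2 / p) ^ j) := by
  classical
  obtain ⟨e⟩ : Nonempty (κ ≃ Fin (Fintype.card κ)) := ⟨Fintype.equivFin κ⟩
  have hL0 : ∀ i, 0 < L i := fun i => by
    have := hT0.trans_le (hL i)
    exact_mod_cast this
  have hmn : ∀ p : ℕ, p.Prime → |mn H p| ≤ B / Real.sqrt p := by
    intro p hp
    have : Fact p.Prime := ⟨hp⟩
    rw [mn_eq]
    exact abs_av_le_const (hH p hp)
  have h1 := Q282.BP.moment (d := Fintype.card κ) j hj (2 * B) (by positivity)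
    (fun p n => H p (fun i => ((N i + (n (e i) : ℤ) : ℤ) : ZMod p)) - mn H p)
    (fun p hp n => by
      have h2 : H p (fun i => ((N i + (n (e i) : ℤ) : ℤ) : ZMod p)) =
          H p (fun i => ((N i + (((fun i => n i % p) (e i) : ℕ) : ℤ) : ℤ) : ZMod p)) := by
        congr 1
        funext i
        rw [Int.cast_add, Int.cast_add, Int.cast_natCast, Int.cast_natCast, ZMod.natCast_mod]
      show H p _ - mn H p = H p _ - mn H p
      rw [h2])
    (fun p hp => by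
      have : Fact p.Prime := ⟨hp⟩
      rw [mean_av e p N (fun u => H p u - mn H p), av_sub, av_const, ← mn_eq, sub_self])
    (fun p hp n => by
      have h2 := hH p hp (fun i => ((N i + (n (e i) : ℤ) : ℤ) : ZMod p))
      have h3 := hmn p hp
      refine (abs_sub _ _).trans ?_
      rw [mul_div_assoc]
      linarith)
    S hS Y hY T hT0 hT (fun k => L (e.symm k)) (fun k => hL _)
  have h2 : ∑ t ∈ kbox N L, (∑ p ∈ S, (H p (fun i => (t i : ZMod p)) - mn H p)) ^ (2 * j) =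
      ∑ n ∈ bx (fun k => L (e.symm k)), (∑ p ∈ S, (H p (fun i => ((N i + (n (e i) : ℤ) : ℤ) : ZMod p)) - mn H p)) ^ (2 * j) := by
    rw [← sum_coe_sort (kbox N L) (fun t => (∑ p ∈ S, (H p (fun i => (t i : ZMod p)) - mn H p)) ^ (2 * j)),
      ← sum_coe_sort (bx (fun k => L (e.symm k))) (fun n => (∑ p ∈ S, (H p (fun i => ((N i + (n (e i) : ℤ) : ℤ) : ZMod p)) - mn H p)) ^ (2 * j))]
    symm
    exact Fintype.sum_equiv (kequiv e N L) _ _ fun n => rfl
  have h3 : ∏ i, (L i : ℝ) = ∏ k : Fin (Fintype.card κ), (L (e.symm k) : ℝ) :=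
    Fintype.prod_equiv e _ _ fun k => by rw [Equiv.symm_apply_apply]
  rw [h2, h3]
  exact h1

/-- the inequality of Markov -/
lemma markov {α : Type} (S : Finset α) (Z : α → ℝ) (k : ℕ) (l : ℝ) (hl : 0 < l) (E : Finset α) (hE : E ⊆ S) (hEZ : ∀ t ∈ E, l < |Z t|) :
    (E.card : ℝ) * l ^ (2 * k) ≤ ∑ t ∈ S, Z t ^ (2 * k) := by
  have h1 : (E.card : ℝ) * l ^ (2 * k) = ∑ t ∈ E, l ^ (2 * k) := by
    rw [sum_const, nsmul_eq_mul]
  rw [h1]
  refine (sum_le_sum (f := fun _ => l ^ (2 * k)) (g := fun t => Z t ^ (2 * k)) fun t ht => ?_).trans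
    (sum_le_sum_of_subset_of_nonneg hE fun t _ _ => by rw [pow_mul]; positivity)
  show l ^ (2 * k) ≤ Z t ^ (2 * k)
  have h2 := hEZ t ht
  have h3 : Z t ^ (2 * k) = |Z t| ^ (2 * k) := by
    rw [pow_mul, pow_mul, sq_abs]
  rw [h3]
  exact pow_le_pow_left₀ hl.le h2.le _

section

variable {K : Type} [Field K] [NumberField K] {ι : Type} [Fintype ι] [DecidableEq ι]

/-- The local values: functions of the residues of the size `1 / q`, with small means. -/
def LocZ (K : Type) [Field K] [NumberField K] (ι : Type) [Fintype ι] [DecidableEq ι] (B : ℝ)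
    (val : HeightOneSpectrum (𝓞 K) → (ι → 𝓞 K) → ℝ) : Prop :=
  ∀ v : HeightOneSpectrum (𝓞 K), ∃ (F : Type) (_ : Field F) (_ : Fintype F) (π : 𝓞 K →+* F) (G : (ι → F) → ℝ),
    Function.Surjective π ∧ CharP F (below v : ℕ) ∧ Fintype.card F = Ideal.absNorm v.asIdeal ∧
    (∀ t, val v t = G (fun i => π (t i))) ∧ (∀ u, |G u| ≤ B / Fintype.card F) ∧
    |av G| ≤ B / (Fintype.card F : ℝ) ^ (3 / 2 : ℝ)

variable {B : ℝ} {val : HeightOneSpectrum (𝓞 K) → (ι → 𝓞 K) → ℝ} {d : ℕ}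

lemma z_le (h : LocZ K ι B val) (v : HeightOneSpectrum (𝓞 K)) (t : ι → 𝓞 K) : |val v t| ≤ B / Ideal.absNorm v.asIdeal := by
  obtain ⟨F, _, _, π, G, -, -, hcard, hval, hbd, -⟩ := h v
  rw [hval, ← hcard]
  exact hbd _

lemma z_res (h : LocZ K ι B val) (b : Fin d → 𝓞 K) (v : HeightOneSpectrum (𝓞 K)) (p : ℕ) [hp : Fact p.Prime] (hv : (below v : ℕ) = p)
    (n : ι × Fin d → ℤ) : val v (comb b n) = vl val b v p (fun k => (n k : ZMod p)) := by
  obtain ⟨F, _, _, π, G, hπ, hch, -, hval, -, -⟩ := h v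
  rw [hv] at hch
  unfold vl
  rw [hval, hval]
  congr 1
  funext i
  exact comb_res p π b n i

lemma z_mean (h : LocZ K ι B val) (b : Fin d → 𝓞 K) (hb : ∀ x : 𝓞 K, ∃ a : Fin d → ℤ, x = ∑ j, (a j : 𝓞 K) * b j)
    (v : HeightOneSpectrum (𝓞 K)) (p : ℕ) [hp : Fact p.Prime] (hv : (below v : ℕ) = p) :
    |av (vl val b v p)| ≤ B / (Ideal.absNorm v.asIdeal : ℝ) ^ (3 / 2 : ℝ) := by
  obtain ⟨F, _, _, π, G, hπ, hch, hcard, hval, -, hmn⟩ := h v
  rw [hv] at hch
  rw [hcard] at hmn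
  have e1 : av (vl val b v p) = av G := by
    rw [← av_resA p π hπ b hb G]
    congr 1
    funext u
    exact hval _
  rw [e1]
  exact hmn

/-- the sum over the primes of bounded norm -/
lemma z_sum (h : LocZ K ι B val) (b : Fin d → 𝓞 K) (c : ℕ → ℝ) (X : ℕ) (hc : ∀ n, X < n → c n = 0) (n : ι × Fin d → ℤ) :
    ∑ v ∈ SX K X, c (Ideal.absNorm v.asIdeal) * val v (comb b n) = ∑ p ∈ PP X, Hw val b c p (fun k => (n k : ZMod p)) := by
  classical
  have h1 : ∀ p ∈ PP X, Hw val b c p (fun k => (n k : ZMod p)) =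
      ∑ v ∈ (SX K X).filter (fun v => (below v : ℕ) = p), c (Ideal.absNorm v.asIdeal) * val v (comb b n) := by
    intro p hp
    obtain ⟨P, hP⟩ : ∃ P : Nat.Primes, (P : ℕ) = p := ⟨⟨p, (mem_filter.1 hp).2⟩, rfl⟩
    subst hP
    have : Fact (P : ℕ).Prime := ⟨P.prop⟩
    rw [Hw_eq]
    have h2 : ∑ v : {v : HeightOneSpectrum (𝓞 K) // below v = P}, c (Ideal.absNorm v.1.asIdeal) * vl val b v.1 P (fun k => (n k : ZMod (P : ℕ))) =
        ∑ v ∈ (univ : Finset {v : HeightOneSpectrum (𝓞 K) // below v = P}).filter (fun v => Ideal.absNorm v.1.asIdeal ≤ X),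
          c (Ideal.absNorm v.1.asIdeal) * val v.1 (comb b n) := by
      rw [sum_filter]
      refine sum_congr rfl fun v _ => ?_
      have h3 : (below v.1 : ℕ) = P := by rw [v.2]
      rw [← z_res h b v.1 P h3 n]
      split_ifs with h4
      · rfl
      · rw [hc _ (not_le.1 h4), zero_mul]
    rw [h2]
    refine sum_bij (fun v _ => v.1) ?_ ?_ ?_ ?_
    · rintro ⟨v, hv⟩ h3
      rw [mem_filter] at h3 ⊢
      exact ⟨mem_SX.2 h3.2, by rw [hv]⟩
    · rintro ⟨v, _⟩ _ ⟨w, _⟩ _ h3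
      exact Subtype.ext h3
    · intro v hv
      rw [mem_filter] at hv
      refine ⟨⟨v, Subtype.ext hv.2⟩, ?_, rfl⟩
      rw [mem_filter]
      exact ⟨mem_univ _, mem_SX.1 hv.1⟩
    · intro v _
      rfl
  rw [sum_congr rfl h1]
  symm
  refine sum_fiberwise_of_maps_to ?_ _
  intro v hv
  rw [mem_SX, norm_eq] at hv
  unfold BP.PP
  rw [mem_filter, mem_Icc]
  exact ⟨⟨(below v).prop.one_lt.le, (Nat.le_self_pow (nm_eq v).2.1.ne' _).trans hv⟩, (below v).prop⟩

/-- the indicator of the interval `(Q, X]` -/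
noncomputable def cI (Q X n : ℕ) : ℝ := if Q < n ∧ n ≤ X then 1 else 0

lemma cI_zero {Q X n : ℕ} (h : X < n) : cI Q X n = 0 := if_neg fun h' => absurd h'.2 (not_le.2 h)

lemma I_le (h : LocZ K ι B val) (hB : 0 ≤ B) (b : Fin d → 𝓞 K) (Q X : ℕ) (hQ : 1 ≤ Q) (hX : X ≤ 2 * Q) (p : ℕ) (hp : p.Prime) (u : ι × Fin d → ZMod p) :
    |Hw val b (cI Q X) p u| ≤ (Real.sqrt 2 * (Module.finrank ℚ K * B) / Real.sqrt Q) / Real.sqrt p := by
  obtain ⟨P, hP⟩ : ∃ P : Nat.Primes, (P : ℕ) = p := ⟨⟨p, hp⟩, rfl⟩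
  subst hP
  have hp0 : (0 : ℝ) < (P : ℕ) := by exact_mod_cast P.prop.pos
  have hQ0 : (0 : ℝ) < Q := by exact_mod_cast hQ
  rw [Hw_eq]
  have hrhs : 0 ≤ (Real.sqrt 2 * (Module.finrank ℚ K * B) / Real.sqrt Q) / Real.sqrt (P : ℕ) := by positivity
  by_cases hpQ : (P : ℕ) ≤ 2 * Q
  · refine (abs_sum_le_sum_abs _ _).trans ?_
    have h1 : ∀ v : {v : HeightOneSpectrum (𝓞 K) // below v = P}, |cI Q X (Ideal.absNorm v.1.asIdeal) * vl val b v.1 P u| ≤ B / Q := by
      rintro ⟨v, hv⟩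
      show |cI Q X (Ideal.absNorm v.asIdeal) * vl val b v P u| ≤ _
      unfold cI
      split_ifs with h3
      · rw [one_mul]
        refine (z_le h v _).trans ?_
        refine div_le_div_of_nonneg_left hB hQ0 ?_
        exact_mod_cast h3.1.le
      · rw [zero_mul, abs_zero]
        positivity
    refine (sum_le_sum fun v _ => h1 v).trans ?_
    rw [sum_const, card_univ, nsmul_eq_mul]
    refine (mul_le_mul_of_nonneg_right (fib_card P) (by positivity)).trans ?_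
    have hs : Real.sqrt (P : ℕ) ≤ Real.sqrt 2 * Real.sqrt Q := by
      rw [← Real.sqrt_mul (by norm_num)]
      refine Real.sqrt_le_sqrt ?_
      exact_mod_cast hpQ
    have hsP : 0 < Real.sqrt (P : ℕ) := Real.sqrt_pos.2 hp0
    have hsQ : 0 < Real.sqrt Q := Real.sqrt_pos.2 hQ0
    have hQQ : Real.sqrt Q * Real.sqrt Q = Q := Real.mul_self_sqrt hQ0.le
    rw [div_div, ← mul_div_assoc, div_le_div_iff₀ hQ0 (by positivity)]
    have h4 : (Module.finrank ℚ K : ℝ) * B * (Real.sqrt Q * Real.sqrt (P : ℕ)) ≤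
        (Module.finrank ℚ K : ℝ) * B * (Real.sqrt Q * (Real.sqrt 2 * Real.sqrt Q)) :=
      mul_le_mul_of_nonneg_left (mul_le_mul_of_nonneg_left hs hsQ.le) (by positivity)
    refine h4.trans (le_of_eq ?_)
    calc (Module.finrank ℚ K : ℝ) * B * (Real.sqrt Q * (Real.sqrt 2 * Real.sqrt Q)) =
          Real.sqrt 2 * ((Module.finrank ℚ K : ℝ) * B) * (Real.sqrt Q * Real.sqrt Q) := by ring
      _ = _ := by rw [hQQ]
  · have h1 : ∑ v : {v : HeightOneSpectrum (𝓞 K) // below v = P}, cI Q X (Ideal.absNorm v.1.asIdeal) * vl val b v.1 P u = 0 := by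
      refine sum_eq_zero fun v _ => ?_
      have h2 : (P : ℕ) ≤ Ideal.absNorm v.1.asIdeal := by
        rw [norm_eq, v.2]
        exact Nat.le_self_pow (nm_eq v.1).2.1.ne' _
      rw [cI_zero (by omega), zero_mul]
    rw [h1, abs_zero]
    exact hrhs

lemma I_mean (h : LocZ K ι B val) (hB : 0 ≤ B) (b : Fin d → 𝓞 K) (hb : ∀ x : 𝓞 K, ∃ a : Fin d → ℤ, x = ∑ j, (a j : 𝓞 K) * b j)
    (Q X : ℕ) (hQ : 1 ≤ Q) (hX : X ≤ 2 * Q) :
    |∑ p ∈ PP X, mn (Hw val b (cI Q X)) p| ≤ 2 * (Module.finrank ℚ K * B) / Real.sqrt Q := by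
  have hQ0 : (0 : ℝ) < Q := by exact_mod_cast hQ
  have hsQ : 0 < Real.sqrt Q := Real.sqrt_pos.2 hQ0
  have h1 : ∀ p ∈ PP X, |mn (Hw val b (cI Q X)) p| ≤ Module.finrank ℚ K * B / (Q * Real.sqrt Q) := by
    intro p hp
    have hpp := (mem_filter.1 hp).2
    have : Fact p.Prime := ⟨hpp⟩
    obtain ⟨P, hP⟩ : ∃ P : Nat.Primes, (P : ℕ) = p := ⟨⟨p, hpp⟩, rfl⟩
    subst hP
    rw [mn_eq]
    have e1 : Hw val b (cI Q X) (P : ℕ) = fun u => ∑ v : {v : HeightOneSpectrum (𝓞 K) // below v = P}, cI Q X (Ideal.absNorm v.1.asIdeal) * vl val b v.1 P u := by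
      funext u
      exact Hw_eq b _ P u
    rw [e1, av_sum]
    refine (abs_sum_le_sum_abs _ _).trans ?_
    have h2 : ∀ v : {v : HeightOneSpectrum (𝓞 K) // below v = P}, |av (fun u => cI Q X (Ideal.absNorm v.1.asIdeal) * vl val b v.1 P u)| ≤ B / (Q * Real.sqrt Q) := by
      rintro ⟨v, hv⟩
      show |av (fun u => cI Q X (Ideal.absNorm v.asIdeal) * vl val b v P u)| ≤ _
      rw [av_mul]
      unfold cI
      split_ifs with h3
      · rw [one_mul]
        refine (z_mean h b hb v P (by rw [hv])).trans ?_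
        refine div_le_div_of_nonneg_left hB (by positivity) ?_
        have h4 : (Q : ℝ) ≤ Ideal.absNorm v.asIdeal := by exact_mod_cast h3.1.le
        rw [Q282.CL.rpow_sqrt]
        have h5 : Real.sqrt Q ≤ Real.sqrt (Ideal.absNorm v.asIdeal) := Real.sqrt_le_sqrt h4
        calc (Q : ℝ) * Real.sqrt Q = Real.sqrt Q ^ 3 := by
              rw [pow_succ, Real.sq_sqrt hQ0.le]
          _ ≤ _ := pow_le_pow_left₀ hsQ.le h5 3
      · rw [zero_mul, abs_zero]
        positivity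
    refine (sum_le_sum fun v _ => h2 v).trans ?_
    rw [sum_const, card_univ, nsmul_eq_mul, mul_div_assoc]
    exact mul_le_mul_of_nonneg_right (fib_card P) (by positivity)
  refine (abs_sum_le_sum_abs _ _).trans ((sum_le_sum h1).trans ?_)
  rw [sum_const, nsmul_eq_mul]
  have h2 : ((PP X).card : ℝ) ≤ 2 * Q := by
    have h3 : (PP X).card ≤ X := by
      unfold BP.PP
      refine (card_filter_le _ _).trans ?_
      rw [Nat.card_Icc]
      omega
    exact_mod_cast h3.trans hX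
  refine (mul_le_mul_of_nonneg_right h2 (by positivity)).trans (le_of_eq ?_)
  field_simp

end

end Q282.TP
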