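import Pool.Agent.Q282.TP.Edge
import Pool.Agent.Q282.PX.Defs
import Pool.Agent.Q282.JK.Mom

/-!
# The local factors at the edge for the products of powers of hyperelliptic curves
-/

set_option autoImplicit false
set_option linter.unusedSectionVars false

namespace Q282.TP

open Polynomial Finset
open Q282.JK Q282.CL Q282.PX
open Pool.Agent.H341R2.Sharp
open Pool.Agent.Y57.FD.Mom (normal)

section ring

variable {R S : Type} [CommRing R] [CommRing S]

/-- The polynomial `X ^ D + u (D - 1) X ^ (D - 1) + ... + u 0`. -/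
noncomputable def hp (D : ℕ) (u : Fin D → R) : R[X] := X ^ D + ∑ i, C (u i) * X ^ (i : ℕ)

lemma hp_monic [Nontrivial R] (D : ℕ) (u : Fin D → R) : (hp D u).Monic := Polynomial.monic_X_pow_add (sum_degree _)

lemma hp_natDegree [Nontrivial R] (D : ℕ) (u : Fin D → R) : (hp D u).natDegree = D := by
  apply Polynomial.natDegree_eq_of_degree_eq_some
  unfold hp
  rw [Polynomial.degree_add_eq_left_of_degree_lt, Polynomial.degree_X_pow]
  rw [Polynomial.degree_X_pow]
  exact sum_degree _

lemma hp_map (φ : R →+* S) (D : ℕ) (u : Fin D → R) : (hp D u).map φ = hp D (fun i => φ (u i)) := by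
  unfold hp
  rw [Polynomial.map_add, Polynomial.map_pow, map_X, Q282.JK.sum_map]

end ring

section finite

variable {F : Type} [Field F] [Fintype F] [DecidableEq F]

lemma hp_eval (D : ℕ) (u : Fin D → F) (x : F) : (hp D u).eval x = Pool.Agent.Y57.FD.Mom.val F D u x := by
  unfold hp Pool.Agent.Y57.FD.Mom.val
  simp [Polynomial.eval_finsetSum]

/-- the equivalence of the index sets -/
def e0 (m : ℕ) : Fin m ≃ Idx 0 m := (Equiv.sumEmpty (Fin m) (Fin 0)).symm.trans (Equiv.emptySum (Fin 0) (Fin m ⊕ Fin 0)).symm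

lemma fpol_e0 (m : ℕ) (u : Idx 0 m → F) : fpol u = hp m (fun j => u (e0 m j)) := by
  unfold fpol mpt hpt lpt hp
  rw [Finset.univ_eq_empty (α := Fin 0), prod_empty, sum_empty, one_mul]
  have h : (0 : F[X]) ^ 2 = 0 := by ring
  rw [h, add_zero]
  rfl

open Classical in
/-- few members are singular -/
lemma bad_av (g : ℕ) : av (fun u : Fin (2 * g + 1) → F => if ¬ Squarefree (hp (2 * g + 1) u) then (1 : ℝ) else 0) ≤ g / Fintype.card F := by
  have h1 := bad_card (F := F) (r := 0) (m := 2 * g + 1) (g := g) (by omega) (Nat.zero_le _)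
  have h2 := av_equiv (Equiv.arrowCongr (e0 (2 * g + 1)).symm (Equiv.refl F))
    (fun u : Fin (2 * g + 1) → F => if ¬ Squarefree (hp (2 * g + 1) u) then (1 : ℝ) else 0)
  rw [h2]
  have h3 : ∀ u : Idx 0 (2 * g + 1) → F, hp (2 * g + 1) (Equiv.arrowCongr (e0 (2 * g + 1)).symm (Equiv.refl F) u) = fpol u := by
    intro u
    rw [fpol_e0]
    rfl
  simp only [h3]
  have hq : (0 : ℝ) < Fintype.card F := by exact_mod_cast Fintype.card_pos
  have hc : (Fintype.card (Idx 0 (2 * g + 1) → F) : ℝ) = (Fintype.card F : ℝ) ^ Fintype.card (Idx 0 (2 * g + 1)) := by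
    rw [Fintype.card_fun]
    push_cast
    rfl
  unfold av
  rw [← sum_filter, sum_const, nsmul_eq_mul, mul_one, hc, div_le_div_iff₀ (by positivity) hq]
  refine h1.trans (le_of_eq ?_)
  push_cast
  ring

/-- the moments of the traces -/
theorem mom_T (k : ℕ) : ∃ C : ℝ, 0 ≤ C ∧ ∀ (F : Type) [Field F] [Fintype F] [DecidableEq F], ringChar F ≠ 2 → ∀ D : ℕ, k ≤ D →
    |av (fun u : Fin D → F => ((T (hp D u) 1 : ℝ) / Real.sqrt (Fintype.card F)) ^ k) - normal k| ≤ C / Fintype.card F := by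
  obtain ⟨C, hC0, hC⟩ := Pool.Agent.Y57.FD.Mom.main k
  refine ⟨C, hC0, fun F _ _ _ hF D hD => ?_⟩
  have h1 := hC F hF D hD
  have hc : (Fintype.card (Fin D → F) : ℝ) = (Fintype.card F : ℝ) ^ D := by
    rw [Fintype.card_fun, Fintype.card_fin]
    push_cast
    rfl
  unfold av
  rw [hc]
  have h2 : ∀ u : Fin D → F, (T (hp D u) 1 : ℝ) = ∑ x : F, (quadraticChar F (Pool.Agent.Y57.FD.Mom.val F D u x) : ℝ) := by
    intro u
    rw [T_one hF]
    exact sum_congr rfl fun x _ => by rw [hp_eval]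
  simp only [h2]
  exact h1

lemma normal_nonneg (k : ℕ) : 0 ≤ normal k := by
  unfold Pool.Agent.Y57.FD.Mom.normal
  split_ifs <;> positivity

/-- products of close numbers -/
lemma prod_near {ι : Type} (s : Finset ι) (a b : ι → ℝ) (N δ : ℝ) (hN : 1 ≤ N) (hδ : 0 ≤ δ) (ha : ∀ i, |a i| ≤ N) (hb : ∀ i, |b i| ≤ N)
    (hab : ∀ i, |a i - b i| ≤ δ) : |∏ i ∈ s, a i - ∏ i ∈ s, b i| ≤ s.card * N ^ s.card * δ := by
  classical
  induction s using Finset.induction_on with
  | empty => simp
  | insert i s hi ih =>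
    rw [prod_insert hi, prod_insert hi, card_insert_of_notMem hi]
    have h1 : a i * ∏ i ∈ s, a i - b i * ∏ i ∈ s, b i = a i * (∏ i ∈ s, a i - ∏ i ∈ s, b i) + (a i - b i) * ∏ i ∈ s, b i := by ring
    rw [h1]
    refine (abs_add_le _ _).trans ?_
    rw [abs_mul, abs_mul]
    have h2 : |∏ i ∈ s, b i| ≤ N ^ s.card := by
      rw [abs_prod]
      refine (prod_le_prod (fun j _ => abs_nonneg _) (g := fun _ => N) fun j _ => hb j).trans ?_
      rw [prod_const]
    have h3 : |a i| * |∏ i ∈ s, a i - ∏ i ∈ s, b i| ≤ N * (s.card * N ^ s.card * δ) :=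
      mul_le_mul (ha i) ih (abs_nonneg _) (by linarith)
    have h4 : |a i - b i| * |∏ i ∈ s, b i| ≤ δ * N ^ s.card := mul_le_mul (hab i) h2 (abs_nonneg _) hδ
    have h5 : N ^ s.card ≤ N ^ (s.card + 1) := pow_le_pow_right₀ hN (by omega)
    have h6 : δ * N ^ s.card ≤ δ * N ^ (s.card + 1) := mul_le_mul_of_nonneg_left h5 hδ
    push_cast
    have h7 : N * (s.card * N ^ s.card * δ) = s.card * N ^ (s.card + 1) * δ := by ring
    have h8 : ((s.card : ℝ) + 1) * N ^ (s.card + 1) * δ = s.card * N ^ (s.card + 1) * δ + δ * N ^ (s.card + 1) := by ring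
    rw [h8]
    linarith

variable {n : ℕ}

/-- the logarithm of the factor at the edge -/
noncomputable def lvalT (𝒞 : Finset (Fin n → Fin 3)) (f : Fin n → F[X]) : ℝ :=
  ∑' k : ℕ, zk 𝒞 f (k + 1) / ((k + 1) * (Fintype.card F : ℝ) ^ (k + 1))

lemma lvalT_expand (hF : ringChar F ≠ 2) (𝒞 : Finset (Fin n → Fin 3)) (f : Fin n → F[X]) (a : ℝ) (ha : 1 ≤ a)
    (hT : ∀ j k, 1 ≤ k → |(T (f j) k : ℝ)| ≤ a * (Real.sqrt (Fintype.card F)) ^ k) :
    |lvalT 𝒞 f - zk 𝒞 f 1 / Fintype.card F| ≤ (𝒞.card * a ^ n) / (Fintype.card F : ℝ) ^ 2 := by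
  obtain ⟨q, hq⟩ : ∃ q : ℝ, q = Fintype.card F := ⟨_, rfl⟩
  obtain ⟨M, hM⟩ : ∃ M : ℝ, M = 𝒞.card * a ^ n := ⟨_, rfl⟩
  have hM0 : 0 ≤ M := by rw [hM]; positivity
  have hq3 : 3 ≤ q := by
    rw [hq]
    exact card_ge hF
  have hq0 : 0 < q := by linarith
  have hz := zk_le 𝒞 f a ha hT
  unfold lvalT
  rw [← hM] at hz ⊢
  rw [← hq]
  have hterm : ∀ k : ℕ, ‖zk 𝒞 f (k + 1) / ((k + 1) * q ^ (k + 1))‖ ≤ M / q * (1 / q) ^ k := by
    intro k
    rw [Real.norm_eq_abs, abs_div, abs_of_pos (by positivity : 0 < ((k : ℝ) + 1) * q ^ (k + 1))]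
    have h1 : M / q * (1 / q) ^ k = M / q ^ (k + 1) := by
      rw [one_div, inv_pow, pow_succ]
      field_simp
    rw [h1]
    refine div_le_div₀ hM0 (hz (k + 1) (by omega)) (by positivity) ?_
    have h2 : (1 : ℝ) ≤ (k : ℝ) + 1 := by
      have : (0 : ℝ) ≤ k := Nat.cast_nonneg k
      linarith
    have h3 : 0 < q ^ (k + 1) := by positivity
    nlinarith
  have hgeo : Summable fun k : ℕ => M / q * (1 / q) ^ k :=
    (summable_geometric_of_lt_one (by positivity) (by rw [div_lt_one hq0]; linarith)).mul_left _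
  have hsum : Summable fun k : ℕ => zk 𝒞 f (k + 1) / ((k + 1) * q ^ (k + 1)) := Summable.of_norm_bounded hgeo hterm
  rw [← hsum.sum_add_tsum_nat_add 1, sum_range_one]
  have e0 : zk 𝒞 f (0 + 1) / ((((0 : ℕ) : ℝ) + 1) * q ^ (0 + 1)) = zk 𝒞 f 1 / q := by
    norm_num
  rw [e0, add_sub_cancel_left]
  have hb : HasSum (fun k : ℕ => M / (2 * q ^ 2) * (1 / q) ^ k) (M / (2 * q ^ 2) * (1 - 1 / q)⁻¹) :=
    (hasSum_geometric_of_lt_one (by positivity) (by rw [div_lt_one hq0]; linarith)).mul_left _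
  have h4 : ‖∑' k : ℕ, zk 𝒞 f (k + 1 + 1) / ((((k + 1 : ℕ) : ℝ) + 1) * q ^ (k + 1 + 1))‖ ≤ M / (2 * q ^ 2) * (1 - 1 / q)⁻¹ := by
    refine tsum_of_norm_bounded hb fun k => ?_
    rw [Real.norm_eq_abs, abs_div, abs_of_pos (by positivity : 0 < (((k + 1 : ℕ) : ℝ) + 1) * q ^ (k + 1 + 1))]
    have h1 : M / (2 * q ^ 2) * (1 / q) ^ k = M / (2 * q ^ (k + 1 + 1)) := by
      rw [one_div, inv_pow, show k + 1 + 1 = 2 + k by ring, pow_add]
      field_simp
    rw [h1]
    refine div_le_div₀ hM0 (hz (k + 1 + 1) (by omega)) (by positivity) ?_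
    have h2 : (2 : ℝ) ≤ ((k + 1 : ℕ) : ℝ) + 1 := by
      push_cast
      have : (0 : ℝ) ≤ k := Nat.cast_nonneg k
      linarith
    have h3 : 0 < q ^ (k + 1 + 1) := by positivity
    nlinarith
  rw [Real.norm_eq_abs] at h4
  refine h4.trans ?_
  have h5 : (1 - 1 / q)⁻¹ ≤ 2 := by
    rw [inv_le_comm₀ (by
      rw [sub_pos, div_lt_one hq0]
      linarith) (by norm_num)]
    have : 1 / q ≤ 1 / 3 := one_div_le_one_div_of_le (by norm_num) hq3
    linarith
  have h6 : M / (2 * q ^ 2) * 2 = M / q ^ 2 := by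
    field_simp
  rw [← h6]
  exact mul_le_mul_of_nonneg_left h5 (by positivity)

variable {s : ℕ}

/-- the index set of the parameters: the coefficients of the polynomials -/
abbrev Jx {s : ℕ} (g : Fin s → ℕ) : Type := Σ i : Fin s, Fin (2 * g i + 1)

/-- The polynomials `f_i = X ^ (2 g_i + 1) + ...` with the coefficients `u`. -/
noncomputable def cu {R : Type} [CommRing R] {g : Fin s → ℕ} (u : Jx g → R) (i : Fin s) : R[X] := hp (2 * g i + 1) (fun l => u ⟨i, l⟩)

/-- the multiplicity -/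
def km (π : Fin n → Fin s) (c : Fin n → Fin 3) (i : Fin s) : ℕ := ((ones c).filter fun j => π j = i).card

/-- the order of the pole -/
noncomputable def ordT (π : Fin n → Fin s) (𝒞 : Finset (Fin n → Fin 3)) : ℝ := ∑ c ∈ 𝒞, ∏ i, normal (km π c i)

open Classical in
/-- the local value -/
noncomputable def locT {g : Fin s → ℕ} (π : Fin n → Fin s) (𝒞 : Finset (Fin n → Fin 3)) (u : Jx g → F) : ℝ :=
  if (2 : F) ≠ 0 ∧ ∀ j, Squarefree (cu u (π j)) then lvalT 𝒞 (fun j => cu u (π j)) else 0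

end finite

open Classical in
/-- the bounds and the means of the local values -/
theorem locT_all {n s : ℕ} (π : Fin n → Fin s) (𝒞 : Finset (Fin n → Fin 3)) (g : Fin s → ℕ) (hk : ∀ c ∈ 𝒞, ∀ i, km π c i ≤ 2 * g i + 1) :
    ∃ B : ℝ, 0 < B ∧ ∀ (F : Type) [Field F] [Fintype F] [DecidableEq F],
    (∀ u : Jx g → F, |locT π 𝒞 u| ≤ B / Fintype.card F) ∧
    (ringChar F ≠ 2 → |av (fun u : Jx g → F => locT π 𝒞 u) - ordT π 𝒞 / Fintype.card F| ≤ B / (Fintype.card F : ℝ) ^ 2) := by
  -- the constants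
  have h1 := fun k : ℕ => mom_T k
  choose Cm hCm hmom using h1
  obtain ⟨a, ha⟩ : ∃ a : ℝ, a = 1 + ∑ i, (5 * (2 * g i + 1) : ℝ) := ⟨_, rfl⟩
  have ha1 : 1 ≤ a := by
    rw [ha]
    have : 0 ≤ ∑ i, (5 * (2 * g i + 1) : ℝ) := sum_nonneg fun j _ => by positivity
    linarith
  obtain ⟨N, hN⟩ : ∃ N : ℝ, N = a ^ n + ∑ k ∈ range (n + 1), normal k + 1 := ⟨_, rfl⟩
  have hnn : 0 ≤ ∑ k ∈ range (n + 1), normal k := sum_nonneg fun k _ => normal_nonneg k
  have hN1 : 1 ≤ N := by
    rw [hN]
    have : 0 ≤ a ^ n := by positivity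
    linarith
  obtain ⟨Δ, hΔ⟩ : ∃ Δ : ℝ, Δ = ∑ k ∈ range (n + 1), Cm k := ⟨_, rfl⟩
  have hΔ0 : 0 ≤ Δ := by
    rw [hΔ]
    exact sum_nonneg fun k _ => hCm k
  obtain ⟨M, hM⟩ : ∃ M : ℝ, M = 𝒞.card * a ^ n := ⟨_, rfl⟩
  have hM0 : 0 ≤ M := by rw [hM]; positivity
  obtain ⟨Γ, hΓ⟩ : ∃ Γ : ℝ, Γ = ∑ j : Fin n, (g (π j) : ℝ) := ⟨_, rfl⟩
  have hΓ0 : 0 ≤ Γ := by rw [hΓ]; positivity
  have hkn : ∀ c i, km π c i ≤ n := by
    intro c i
    unfold km
    refine (card_filter_le _ _).trans ?_
    have := card_le_univ (ones c)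
    rwa [Fintype.card_fin] at this
  refine ⟨2 * M + M * Γ + 𝒞.card * (s * N ^ s * Δ) + 1, by positivity, fun F _ _ _ => ?_⟩
  obtain ⟨q, hq⟩ : ∃ q : ℝ, q = Fintype.card F := ⟨_, rfl⟩
  have hq1 : (1 : ℝ) ≤ q := by rw [hq]; exact_mod_cast Fintype.card_pos
  have hq0 : 0 < q := by linarith
  obtain ⟨w, hw⟩ : ∃ w : ℝ, w = Real.sqrt q := ⟨_, rfl⟩
  have hw1 : 1 ≤ w := by rw [hw]; exact Real.one_le_sqrt.2 hq1
  have hw0 : 0 < w := by linarith
  by_cases hF : ringChar F = 2
  · refine ⟨fun u => ?_, fun h => absurd hF h⟩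
    unfold locT
    have h2 : (2 : F) = 0 := by
      have := CharP.cast_eq_zero F (ringChar F)
      rw [hF] at this
      exact_mod_cast this
    rw [if_neg (fun h => h.1 h2), abs_zero]
    positivity
  have hT : ∀ (i : Fin s) (u : Fin (2 * g i + 1) → F) (k : ℕ), 1 ≤ k → |(T (hp (2 * g i + 1) u) k : ℝ)| ≤ a * w ^ k := by
    intro i u k hk
    have h4 := (T_bound hF (hp_monic _ u) (by rw [hp_natDegree]; omega) (odd_ns (hp_monic _ u) (hp_natDegree _ u)) k hk).1
    rw [hp_natDegree, ← hq, ← hw] at h4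
    refine h4.trans ?_
    have h5 := single_le_sum (f := fun i => (5 * (2 * g i + 1) : ℝ)) (fun i _ => by positivity) (mem_univ i)
    have h6 : (5 * (2 * g i + 1) : ℝ) ≤ ∑ i, (5 * (2 * g i + 1) : ℝ) := h5
    have h7 : ((5 * (2 * g i + 1) : ℝ)) * w ^ k ≤ a * w ^ k := by
      refine mul_le_mul_of_nonneg_right ?_ (by positivity)
      rw [ha]
      linarith
    refine le_trans (le_of_eq ?_) h7
    push_cast
    ring
  have hTu : ∀ (u : Jx g → F) (j : Fin n) (k : ℕ), 1 ≤ k → |(T (cu u (π j)) k : ℝ)| ≤ a * (Real.sqrt (Fintype.card F)) ^ k := by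
    intro u j k hk
    rw [← hq, ← hw]
    exact hT (π j) _ k hk
  -- the main term
  obtain ⟨z, hz⟩ : ∃ z : (Jx g → F) → ℝ, z = fun u => zk 𝒞 (fun j => cu u (π j)) 1 := ⟨_, rfl⟩
  have hzM : ∀ u, |z u| ≤ M := by
    intro u
    rw [hz, hM]
    exact zk_le 𝒞 (fun j => cu u (π j)) a ha1 (hTu u) 1 le_rfl
  have hbound : ∀ u : Jx g → F, |locT π 𝒞 u - z u / q| ≤ M / q ^ 2 + if ∃ j, ¬ Squarefree (cu u (π j)) then M / q else 0 := by
    intro u
    unfold locT
    by_cases hu : ∃ j, ¬ Squarefree (cu u (π j))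
    · rw [if_pos hu, if_neg (fun h => by
        obtain ⟨j, hj⟩ := hu
        exact hj (h.2 j)), zero_sub, abs_neg, abs_div, abs_of_pos hq0]
      have h3 := div_le_div_of_nonneg_right (hzM u) hq0.le
      have : 0 ≤ M / q ^ 2 := by positivity
      linarith
    · rw [if_neg hu, add_zero]
      push Not at hu
      rw [if_pos ⟨Ring.two_ne_zero hF, hu⟩, hz, hq, hM]
      exact lvalT_expand hF 𝒞 (fun j => cu u (π j)) a ha1 (hTu u)
  refine ⟨fun u => ?_, fun _ => ?_⟩
  · have h3 := hbound u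
    have h4 : |locT π 𝒞 u| ≤ |locT π 𝒞 u - z u / q| + |z u / q| := by
      have := abs_add_le (locT π 𝒞 u - z u / q) (z u / q)
      rwa [sub_add_cancel] at this
    by_cases hu : ∃ j, ¬ Squarefree (cu u (π j))
    · have h5 : locT π 𝒞 u = 0 := by
        unfold locT
        rw [if_neg]
        intro h
        obtain ⟨j, hj⟩ := hu
        exact hj (h.2 j)
      rw [h5, abs_zero, ← hq]
      positivity
    · rw [if_neg hu, add_zero] at h3
      have h5 : |z u / q| ≤ M / q := by
        rw [abs_div, abs_of_pos hq0]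
        exact div_le_div_of_nonneg_right (hzM u) hq0.le
      have h6 : M / q ^ 2 ≤ M / q := by
        refine div_le_div_of_nonneg_left hM0 hq0 ?_
        nlinarith
      have h7 : M / q + M / q ≤ (2 * M + M * Γ + 𝒞.card * (s * N ^ s * Δ) + 1) / q := by
        rw [← add_div]
        refine div_le_div_of_nonneg_right ?_ hq0.le
        have : 0 ≤ M * Γ := by positivity
        have : 0 ≤ 𝒞.card * (s * N ^ s * Δ) := by positivity
        linarith
      rw [← hq]
      linarith
  · -- the mean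
    have hcurry : ∀ φ : (Jx g → F) → ℝ, av φ = av (fun ω : (∀ i : Fin s, Fin (2 * g i + 1) → F) => φ (fun k => ω k.1 k.2)) := by
      intro φ
      have h3 := av_equiv (Equiv.piCurry (fun (i : Fin s) (_ : Fin (2 * g i + 1)) => F)).symm φ
      rw [h3]
      rfl
    -- the bad ones
    have hbad : av (fun u : Jx g → F => if ∃ j, ¬ Squarefree (cu u (π j)) then M / q else 0) ≤ M * Γ / q ^ 2 := by
      have h3 : ∀ u : Jx g → F, (if ∃ j, ¬ Squarefree (cu u (π j)) then M / q else 0) ≤
          ∑ j, (M / q) * (if ¬ Squarefree (cu u (π j)) then (1 : ℝ) else 0) := by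
        intro u
        by_cases hu : ∃ j, ¬ Squarefree (cu u (π j))
        · rw [if_pos hu]
          obtain ⟨j, hj⟩ := hu
          refine le_trans ?_ (single_le_sum (f := fun j => (M / q) * (if ¬ Squarefree (cu u (π j)) then (1 : ℝ) else 0)) (fun j _ => by
            exact mul_nonneg (by positivity) (by split_ifs <;> norm_num)) (mem_univ j))
          show M / q ≤ (M / q) * (if ¬ Squarefree (cu u (π j)) then (1 : ℝ) else 0)
          rw [if_pos hj, mul_one]
        · rw [if_neg hu]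
          exact sum_nonneg fun j _ => mul_nonneg (by positivity) (by split_ifs <;> norm_num)
      refine (av_mono h3).trans ?_
      rw [av_sum]
      have h4 : ∀ j : Fin n, av (fun u : Jx g → F => (M / q) * (if ¬ Squarefree (cu u (π j)) then (1 : ℝ) else 0)) ≤ (M / q) * (g (π j) / q) := by
        intro j
        rw [av_mul]
        refine mul_le_mul_of_nonneg_left ?_ (by positivity)
        rw [hcurry]
        have h5 : (fun ω : (∀ i : Fin s, Fin (2 * g i + 1) → F) => if ¬ Squarefree (cu (g := g) (fun k => ω k.1 k.2) (π j)) then (1 : ℝ) else 0) =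
            fun ω => ∏ i, (fun (i : Fin s) (u : Fin (2 * g i + 1) → F) => if i = π j then (if ¬ Squarefree (hp (2 * g i + 1) u) then (1 : ℝ) else 0) else 1) i (ω i) := by
          funext ω
          rw [prod_eq_single (π j)]
          · show (if ¬ Squarefree (cu (g := g) (fun k => ω k.1 k.2) (π j)) then (1 : ℝ) else 0) =
              if π j = π j then (if ¬ Squarefree (hp (2 * g (π j) + 1) (ω (π j))) then (1 : ℝ) else 0) else 1
            rw [if_pos (rfl : π j = π j)]
            rfl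
          · intro i _ hi
            exact if_neg hi
          · intro h
            exact absurd (mem_univ _) h
        rw [h5, av_pi (fun (i : Fin s) (u : Fin (2 * g i + 1) → F) => if i = π j then (if ¬ Squarefree (hp (2 * g i + 1) u) then (1 : ℝ) else 0) else 1),
          prod_eq_single (π j)]
        · simp only [if_true]
          rw [hq]
          exact bad_av (g (π j))
        · intro i _ hi
          simp only [if_neg hi]
          exact av_const _
        · intro h
          exact absurd (mem_univ _) h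
      refine (sum_le_sum fun j _ => h4 j).trans (le_of_eq ?_)
      rw [← mul_sum, ← sum_div, hΓ]
      ring
    -- the moments
    have hmain : |av z - ordT π 𝒞| ≤ 𝒞.card * (s * N ^ s * Δ) / q := by
      have e1 : z = fun u => ∑ c ∈ 𝒞, ∏ i, ((T (cu u i) 1 : ℝ) / w) ^ km π c i := by
        rw [hz]
        funext u
        unfold zk
        refine sum_congr rfl fun c _ => ?_
        rw [← hq, ← hw, pow_one]
        unfold km
        rw [← Finset.prod_fiberwise' (ones c) π (fun i => (T (cu u i) 1 : ℝ) / w)]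
        exact prod_congr rfl fun i _ => by rw [prod_const]
      rw [e1, av_sum]
      unfold ordT
      rw [← sum_sub_distrib]
      refine (abs_sum_le_sum_abs _ _).trans ?_
      have h3 : ∀ c ∈ 𝒞, |av (fun u : Jx g → F => ∏ i, ((T (cu u i) 1 : ℝ) / w) ^ km π c i) - ∏ i, normal (km π c i)| ≤ s * N ^ s * (Δ / q) := by
        intro c hc
        rw [hcurry]
        have h4 : (fun ω : (∀ i : Fin s, Fin (2 * g i + 1) → F) => ∏ i, ((T (cu (g := g) (fun k => ω k.1 k.2) i) 1 : ℝ) / w) ^ km π c i) =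
            fun ω => ∏ i, (fun (i : Fin s) (u : Fin (2 * g i + 1) → F) => ((T (hp (2 * g i + 1) u) 1 : ℝ) / w) ^ km π c i) i (ω i) := rfl
        rw [h4, av_pi (fun (i : Fin s) (u : Fin (2 * g i + 1) → F) => ((T (hp (2 * g i + 1) u) 1 : ℝ) / w) ^ km π c i)]
        have hx : ∀ (i : Fin s) (u : Fin (2 * g i + 1) → F), |((T (hp (2 * g i + 1) u) 1 : ℝ) / w) ^ km π c i| ≤ a ^ n := by
          intro i u
          rw [abs_pow, abs_div, abs_of_pos hw0]
          have h5 := hT i u 1 le_rfl
          rw [pow_one] at h5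
          have h6 : |(T (hp (2 * g i + 1) u) 1 : ℝ)| / w ≤ a := by
            rw [div_le_iff₀ hw0]
            exact h5
          exact (pow_le_pow_left₀ (by positivity) h6 _).trans (pow_le_pow_right₀ ha1 (hkn c i))
        have hnk : ∀ i, normal (km π c i) ≤ ∑ k ∈ range (n + 1), normal k := by
          intro i
          exact single_le_sum (f := fun k => normal k) (fun k _ => normal_nonneg k) (mem_range.2 (by have := hkn c i; omega))
        have hnear := prod_near (univ : Finset (Fin s)) (fun i => av (fun u : Fin (2 * g i + 1) → F => ((T (hp (2 * g i + 1) u) 1 : ℝ) / w) ^ km π c i))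
          (fun i => normal (km π c i)) N (Δ / q) hN1 (by positivity) (fun i => by
            refine (abs_av_le_const (hx i)).trans ?_
            rw [hN]
            linarith) (fun i => by
            rw [abs_of_nonneg (normal_nonneg _), hN]
            have := hnk i
            have : 0 ≤ a ^ n := by positivity
            linarith) (fun i => by
            have h5 := hmom (km π c i) F hF (2 * g i + 1) (hk c hc i)
            rw [← hq, ← hw] at h5
            refine h5.trans (div_le_div_of_nonneg_right ?_ hq0.le)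
            rw [hΔ]
            exact single_le_sum (f := Cm) (fun k _ => hCm k) (mem_range.2 (by have := hkn c i; omega)))
        rw [card_univ, Fintype.card_fin] at hnear
        exact hnear
      refine (sum_le_sum h3).trans (le_of_eq ?_)
      rw [sum_const, nsmul_eq_mul]
      ring
    have h3 : av (fun u : Jx g → F => locT π 𝒞 u) - ordT π 𝒞 / q = av (fun u => locT π 𝒞 u - z u / q) + (av z - ordT π 𝒞) / q := by
      rw [av_sub]
      have : av (fun u => z u / q) = av z / q := by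
        have e : (fun u => z u / q) = fun u => (1 / q) * z u := by
          funext u
          ring
        rw [e, av_mul]
        ring
      rw [this]
      ring
    rw [← hq, h3]
    have h4 : |av (fun u => locT π 𝒞 u - z u / q)| ≤ M / q ^ 2 + M * Γ / q ^ 2 := by
      refine (abs_av_le _).trans ((av_mono hbound).trans ?_)
      rw [av_add, av_const]
      linarith
    have h5 : |(av z - ordT π 𝒞) / q| ≤ 𝒞.card * (s * N ^ s * Δ) / q ^ 2 := by
      rw [abs_div, abs_of_pos hq0, div_le_div_iff₀ hq0 (by positivity)]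
      have h6 := mul_le_mul_of_nonneg_right hmain (by positivity : 0 ≤ q ^ 2)
      refine h6.trans (le_of_eq ?_)
      field_simp
    refine (abs_add_le _ _).trans ((add_le_add h4 h5).trans ?_)
    rw [← add_div, ← add_div]
    refine div_le_div_of_nonneg_right ?_ (by positivity)
    linarith

end Q282.TP
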